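import Mathlib

/-!
# Definitions for the hyperbolic Poisson Voronoi graph
-/

namespace Pool.Agent.Lib.MP_c20824_pr

open MeasureTheory ProbabilityTheory
open scoped UpperHalfPlane

/-- The Voronoi cell of `p` with respect to the set of sites `X ⊆ ℍ`: the points whose hyperbolic
distance to `p` is at most their distance to every point of `X`. -/
def cell (X : Set ℍ) (p : ℍ) : Set ℍ := {z | ∀ q ∈ X, dist z p ≤ dist z q}

/-- The hyperbolic (geodesic) segment with endpoints `z` and `w`. -/
def hypSegment (z w : ℍ) : Set ℍ := {u | dist z u + dist u w = dist z w}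

/-- The dual graph of the Voronoi tessellation of `X`: the vertices are the points of `X`, and two
distinct points are adjacent when their cells share a geodesic segment of positive length. -/
def voronoiGraph (X : Set ℍ) : SimpleGraph X where
  Adj p q := p ≠ q ∧ ∃ z w : ℍ, z ≠ w ∧ hypSegment z w ⊆ cell X p ∩ cell X q
  symm := ⟨fun _ _ h => ⟨h.1.symm, by
    obtain ⟨z, w, hzw, hsub⟩ := h.2
    exact ⟨z, w, hzw, fun u hu => ⟨(hsub hu).2, (hsub hu).1⟩⟩⟩⟩
  loopless := ⟨fun _ h => h.1 rfl⟩

variable {V : Type*} {G : SimpleGraph V}

/-- A walk in a graph is a geodesic if its length is the graph distance of its endpoints. -/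
def IsGeodesic {u v : V} (p : G.Walk u v) : Prop := p.length = G.dist u v

/-- Every vertex in `A` is within graph distance `δ` of some vertex in `B` or in `C`. -/
def NearUnion (G : SimpleGraph V) (δ : ℝ) (A B C : List V) : Prop :=
  ∀ u ∈ A, ∃ v, (v ∈ B ∨ v ∈ C) ∧ (G.dist u v : ℝ) ≤ δ

/-- The triangle with sides `p`, `q`, `r` is `δ`-thin: each of its three sides lies in the closed
`δ`-neighbourhood of the union of the other two sides. -/
def IsThin (δ : ℝ) {x y z : V} (p : G.Walk x y) (q : G.Walk y z) (r : G.Walk x z) : Prop :=
  NearUnion G δ p.support q.support r.support ∧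
  NearUnion G δ q.support p.support r.support ∧
  NearUnion G δ r.support p.support q.support

/-- `X` is a Poisson point process on `ℍ` with intensity measure `μ`: the number of points in every
measurable set of finite `μ`-measure is Poisson distributed with parameter `μ A`, and the numbers of
points in pairwise disjoint measurable sets are independent. -/
structure IsPoissonProcess {Ω : Type*} [MeasurableSpace Ω] (P : Measure Ω) (X : Ω → Set ℍ)
    (μ : Measure ℍ) : Prop where
  measurable_count : ∀ A : Set ℍ, MeasurableSet A → Measurable fun ω => (X ω ∩ A).encard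
  law_count : ∀ A : Set ℍ, MeasurableSet A → μ A ≠ ⊤ → ∀ k : ℕ,
    P {ω | (X ω ∩ A).encard = k} =
      ENNReal.ofReal (Real.exp (-(μ A).toReal) * (μ A).toReal ^ k / k.factorial)
  indep_count : ∀ (n : ℕ) (A : Fin n → Set ℍ), (∀ i, MeasurableSet (A i)) →
    (∀ i j, i ≠ j → Disjoint (A i) (A j)) → iIndepFun (fun i ω => (X ω ∩ A i).encard) P

end Pool.Agent.Lib.MP_c20824_pr
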