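import Mathlib
import Pool.Agent.Lib.MP_c20824_pr.Defs

section

/-!
# Anchored thin triangles imply Gromov hyperbolicity, and the detour inequality
-/

namespace Pool.Agent.Lib.MP_c20824_pr

variable {V : Type*} {G : SimpleGraph V}

/-- All geodesic triangles having `x` as a vertex are `δ`-thin. -/
def AnchoredThin (G : SimpleGraph V) (x : V) (δ : ℝ) : Prop :=
  ∀ (y z : V) (p : G.Walk x y) (q : G.Walk y z) (r : G.Walk x z),
    IsGeodesic p → IsGeodesic q → IsGeodesic r → IsThin δ p q r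

lemma IsThin.mono {x y z : V} {p : G.Walk x y} {q : G.Walk y z} {r : G.Walk x z} {δ δ' : ℝ}
    (h : IsThin δ p q r) (hδ : δ ≤ δ') : IsThin δ' p q r := by
  obtain ⟨h1, h2, h3⟩ := h
  refine ⟨fun u hu => ?_, fun u hu => ?_, fun u hu => ?_⟩
  · obtain ⟨v, hv, hd⟩ := h1 u hu; exact ⟨v, hv, hd.trans hδ⟩
  · obtain ⟨v, hv, hd⟩ := h2 u hu; exact ⟨v, hv, hd.trans hδ⟩
  · obtain ⟨v, hv, hd⟩ := h3 u hu; exact ⟨v, hv, hd.trans hδ⟩

lemma dist_getVert_le {x y : V} (p : G.Walk x y) (i j : ℕ) (hij : i ≤ j) :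
    G.dist (p.getVert i) (p.getVert j) ≤ j - i := by
  obtain ⟨k, rfl⟩ := Nat.exists_eq_add_of_le hij
  have h1 : ((p.drop i).take k).length ≤ k := by
    rw [SimpleGraph.Walk.take_length]; exact min_le_left _ _
  have h : G.dist (p.getVert i) ((p.drop i).getVert k) ≤ k :=
    (SimpleGraph.dist_le ((p.drop i).take k)).trans h1
  have h2 : (p.drop i).getVert k = p.getVert (i + k) := by
    rw [SimpleGraph.Walk.drop_getVert]
  rw [h2] at h
  omega

lemma dist_getVert_of_geod (hG : G.Connected) {x y : V} (p : G.Walk x y) (hp : IsGeodesic p)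
    {t : ℕ} (ht : t ≤ G.dist x y) :
    G.dist x (p.getVert t) = t ∧ G.dist (p.getVert t) y = G.dist x y - t := by
  have h1 := dist_getVert_le p 0 t (Nat.zero_le _)
  have h2 := dist_getVert_le p t p.length (by rw [hp]; exact ht)
  rw [SimpleGraph.Walk.getVert_zero] at h1
  rw [SimpleGraph.Walk.getVert_length] at h2
  rw [hp] at h2
  have h3 := hG.dist_triangle (u := x) (v := p.getVert t) (w := y)
  omega

lemma exists_getVert_of_mem {x y : V} (p : G.Walk x y) {u : V} (hu : u ∈ p.support) :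
    ∃ t, t ≤ p.length ∧ p.getVert t = u := by
  obtain ⟨n, hn, hle⟩ := SimpleGraph.Walk.mem_support_iff_exists_getVert.mp hu
  exact ⟨n, hle, hn⟩

lemma divergence (hG : G.Connected) {x : V} {δ : ℕ} (hthin : AnchoredThin G x δ) {y z : V}
    (p : G.Walk x y) (r : G.Walk x z) (hp : IsGeodesic p) (hr : IsGeodesic r) {t : ℕ}
    (hty : t ≤ G.dist x y)
    (ht : G.dist y z + 2 * (t + δ) < G.dist x y + G.dist x z) :
    G.dist (p.getVert t) (r.getVert t) ≤ 2 * δ := by
  obtain ⟨q, hq⟩ := hG.exists_walk_length_eq_dist y z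
  obtain ⟨h1, -, -⟩ := hthin y z p q r hp hq hr
  obtain ⟨v, hv, hd⟩ := h1 (p.getVert t) (SimpleGraph.Walk.getVert_mem_support p t)
  have hd' : G.dist (p.getVert t) v ≤ δ := by exact_mod_cast hd
  have hxt := (dist_getVert_of_geod hG p hp hty).1
  have tri := hG.dist_triangle (u := x) (v := p.getVert t) (w := v)
  rcases hv with hv | hv
  · exfalso
    obtain ⟨s, hs, rfl⟩ := exists_getVert_of_mem q hv
    have hs' : s ≤ G.dist y z := by rw [← hq]; exact hs
    obtain ⟨e1, e2⟩ := dist_getVert_of_geod hG q hq hs'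
    have t1 := hG.dist_triangle (u := x) (v := q.getVert s) (w := y)
    have t2 := hG.dist_triangle (u := x) (v := q.getVert s) (w := z)
    have t3 : G.dist (q.getVert s) y = G.dist y (q.getVert s) := SimpleGraph.dist_comm
    omega
  · obtain ⟨s, hs, rfl⟩ := exists_getVert_of_mem r hv
    have hs' : s ≤ G.dist x z := by rw [← hr]; exact hs
    obtain ⟨e1, e2⟩ := dist_getVert_of_geod hG r hr hs'
    have tri2 := hG.dist_triangle (u := p.getVert t) (v := r.getVert s) (w := r.getVert t)
    have tri3 := hG.dist_triangle (u := x) (v := r.getVert s) (w := p.getVert t)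
    have c1 : G.dist (r.getVert s) (p.getVert t) = G.dist (p.getVert t) (r.getVert s) :=
      SimpleGraph.dist_comm
    rcases le_total s t with hst | hst
    · have := dist_getVert_le r s t hst
      omega
    · have := dist_getVert_le r t s hst
      have c2 : G.dist (r.getVert s) (r.getVert t) = G.dist (r.getVert t) (r.getVert s) :=
        SimpleGraph.dist_comm
      omega

/-- The four-point inequality with base point `x` and additive constant `K`. -/
def FourPoint (G : SimpleGraph V) (x : V) (K : ℕ) : Prop :=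
  ∀ y z w : V, G.dist x w + G.dist y z ≤
    max (G.dist x z + G.dist y w) (G.dist x y + G.dist z w) + K

lemma fourPoint_of_anchoredThin (hG : G.Connected) {x : V} {δ : ℕ} (hthin : AnchoredThin G x δ) :
    FourPoint G x (6 * δ + 2) := by
  intro y z w
  by_contra hcon
  push Not at hcon
  have hA : G.dist x z + G.dist y w + (6 * δ + 2) < G.dist x w + G.dist y z := by
    have := le_max_left (G.dist x z + G.dist y w) (G.dist x y + G.dist z w)
    omega
  have hB : G.dist x y + G.dist z w + (6 * δ + 2) < G.dist x w + G.dist y z := by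
    have := le_max_right (G.dist x z + G.dist y w) (G.dist x y + G.dist z w)
    omega
  clear hcon
  obtain ⟨p, hp⟩ := hG.exists_walk_length_eq_dist x y
  obtain ⟨r, hr⟩ := hG.exists_walk_length_eq_dist x z
  obtain ⟨s, hs⟩ := hG.exists_walk_length_eq_dist x w
  have cyw : G.dist w y = G.dist y w := SimpleGraph.dist_comm
  have czw : G.dist w z = G.dist z w := SimpleGraph.dist_comm
  have cxy : G.dist y x = G.dist x y := SimpleGraph.dist_comm
  have cxz : G.dist z x = G.dist x z := SimpleGraph.dist_comm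
  have cxw : G.dist w x = G.dist x w := SimpleGraph.dist_comm
  -- doubled Gromov products
  have tyz := hG.dist_triangle (u := y) (v := x) (w := z)
  have tyw1 := hG.dist_triangle (u := y) (v := x) (w := w)
  have tyw2 := hG.dist_triangle (u := x) (v := y) (w := w)
  have tyw3 := hG.dist_triangle (u := x) (v := w) (w := y)
  have tzw1 := hG.dist_triangle (u := z) (v := x) (w := w)
  have tzw2 := hG.dist_triangle (u := x) (v := z) (w := w)
  have tzw3 := hG.dist_triangle (u := x) (v := w) (w := z)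
  -- choose t
  obtain ⟨a, ha⟩ : ∃ a, a + G.dist y w = G.dist x y + G.dist x w :=
    ⟨G.dist x y + G.dist x w - G.dist y w, by omega⟩
  obtain ⟨b, hb⟩ : ∃ b, b + G.dist z w = G.dist x z + G.dist x w :=
    ⟨G.dist x z + G.dist x w - G.dist z w, by omega⟩
  -- t maximal with 2 (t + δ) < min a b
  have hmin : 2 * δ + 2 < min a b := by
    rw [lt_min_iff]; constructor <;> omega
  obtain ⟨t, ht1, ht2⟩ : ∃ t, 2 * (t + δ) < min a b ∧ min a b ≤ 2 * (t + δ) + 2 :=
    ⟨(min a b - 1) / 2 - δ, by omega, by omega⟩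
  have hta : 2 * (t + δ) < a := lt_of_lt_of_le ht1 (min_le_left _ _)
  have htb : 2 * (t + δ) < b := lt_of_lt_of_le ht1 (min_le_right _ _)
  have hty : t ≤ G.dist x y := by omega
  have htz : t ≤ G.dist x z := by omega
  have htw : t ≤ G.dist x w := by omega
  have d1 := divergence hG hthin p s hp hs (t := t) hty (by omega)
  have d2 := divergence hG hthin r s hr hs (t := t) htz (by omega)
  have e1 := (dist_getVert_of_geod hG p hp hty).2
  have e2 := (dist_getVert_of_geod hG r hr htz).2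
  have c1 : G.dist y (p.getVert t) = G.dist (p.getVert t) y := SimpleGraph.dist_comm
  have c2 : G.dist (s.getVert t) (r.getVert t) = G.dist (r.getVert t) (s.getVert t) :=
    SimpleGraph.dist_comm
  have t1 := hG.dist_triangle (u := y) (v := p.getVert t) (w := z)
  have t2 := hG.dist_triangle (u := p.getVert t) (v := s.getVert t) (w := z)
  have t3 := hG.dist_triangle (u := s.getVert t) (v := r.getVert t) (w := z)
  rcases min_choice a b with h | h <;> rw [h] at ht2 <;> omega

/-- Change of base point in the four-point inequality. -/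
lemma FourPoint.base_change {x : V} {K : ℕ} (h : FourPoint G x K) (m : V) :
    FourPoint G m (2 * K) := by
  intro a b c
  have key : ∀ u v w : V, G.dist x w + G.dist u v ≤ G.dist x v + G.dist u w + K ∨
      G.dist x w + G.dist u v ≤ G.dist x u + G.dist v w + K := by
    intro u v w
    have := h u v w
    rcases max_choice (G.dist x v + G.dist u w) (G.dist x u + G.dist v w) with h' | h' <;>
      rw [h'] at this
    · exact Or.inl this
    · exact Or.inr this
  have sym : ∀ u v : V, G.dist u v = G.dist v u := fun u v => SimpleGraph.dist_comm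
  have s1 := sym a b
  have s2 := sym a c
  have s3 := sym b c
  have s4 := sym m a
  have s5 := sym m b
  have s6 := sym m c
  have k1 := key m a b
  have k2 := key m a c
  have k3 := key m b a
  have k4 := key m b c
  have k5 := key m c a
  have k6 := key m c b
  have k7 := key a b m
  have k8 := key a b c
  have k9 := key a c m
  have k10 := key a c b
  have k11 := key b c m
  have k12 := key b c a
  have hgoal : G.dist m c + G.dist a b ≤ G.dist m b + G.dist a c + 2 * K ∨
      G.dist m c + G.dist a b ≤ G.dist m a + G.dist b c + 2 * K := by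
    omega
  rcases hgoal with hg | hg
  · exact hg.trans (by have := le_max_left (G.dist m b + G.dist a c) (G.dist m a + G.dist b c); omega)
  · exact hg.trans (by have := le_max_right (G.dist m b + G.dist a c) (G.dist m a + G.dist b c); omega)

/-- The detour inequality: a walk of length at most `2 ^ k` avoiding the ball of radius `R`
about `m` forces a large Gromov product. -/
lemma FourPoint.detour {m : V} {K R : ℕ} (h : FourPoint G m K) :
    ∀ (k : ℕ) {a b : V} (w : G.Walk a b), w.length ≤ 2 ^ k → (∀ v ∈ w.support, R ≤ G.dist m v) →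
      G.dist a b + 2 * R ≤ G.dist m a + G.dist m b + K * k + 1 := by
  intro k
  induction k with
  | zero =>
    intro a b w hw hR
    have ha := hR a w.start_mem_support
    have hb := hR b w.end_mem_support
    have := SimpleGraph.dist_le w
    simp only [pow_zero] at hw
    omega
  | succ k ih =>
    intro a b w hw hR
    have hw' : w.length ≤ 2 ^ k + 2 ^ k := by rw [pow_succ] at hw; omega
    have h1 := ih (w.take (2 ^ k)) (by rw [SimpleGraph.Walk.take_length]; exact min_le_left _ _)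
      (fun v hv => hR v (by
        obtain ⟨t, -, rfl⟩ := exists_getVert_of_mem _ hv
        rw [SimpleGraph.Walk.take_getVert]
        exact SimpleGraph.Walk.getVert_mem_support _ _))
    have h2 := ih (w.drop (2 ^ k)) (by rw [SimpleGraph.Walk.drop_length]; omega)
      (fun v hv => hR v (by
        obtain ⟨t, -, rfl⟩ := exists_getVert_of_mem _ hv
        rw [SimpleGraph.Walk.drop_getVert]
        exact SimpleGraph.Walk.getVert_mem_support _ _))
    have h3 := h a b (w.getVert (2 ^ k))
    have c1 : G.dist b (w.getVert (2 ^ k)) = G.dist (w.getVert (2 ^ k)) b := SimpleGraph.dist_comm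
    rcases max_choice (G.dist m b + G.dist a (w.getVert (2 ^ k)))
      (G.dist m a + G.dist b (w.getVert (2 ^ k))) with h' | h' <;> rw [h'] at h3
    · rw [Nat.mul_succ]; omega
    · rw [Nat.mul_succ]; omega

/-- In a connected graph with anchored thin triangles, a walk avoiding the ball of radius `R` about
a point `m` between `a` and `b` has length exponential in `R`. -/
lemma detour_of_anchoredThin (hG : G.Connected) {x : V} {δ : ℕ} (hthin : AnchoredThin G x δ)
    {a b m : V} {R k : ℕ} (hm : G.dist a m + G.dist m b = G.dist a b) (w : G.Walk a b)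
    (hw : w.length ≤ 2 ^ k) (hR : ∀ v ∈ w.support, R ≤ G.dist m v) :
    2 * R ≤ (12 * δ + 4) * k + 1 := by
  have h1 := ((fourPoint_of_anchoredThin hG hthin).base_change m).detour k w hw hR
  have c1 : G.dist m a = G.dist a m := SimpleGraph.dist_comm
  have : 2 * (6 * δ + 2) = 12 * δ + 4 := by ring
  rw [this] at h1
  omega

end Pool.Agent.Lib.MP_c20824_pr
end

section

section

/-!
# A convex open subset of the plane minus a countable set is preconnected
-/

namespace Pool.Agent.Lib.MP_c20824_pr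

open Set Metric Topology
open scoped Convex

theorem isPreconnected_convex_open_diff_countable {D S : Set ℂ} (hD : IsOpen D)
    (hconv : Convex ℝ D) (hS : S.Countable) : IsPreconnected (D \ S) := by
  have h : 1 < Module.rank ℝ ℂ := by simp
  refine isPreconnected_of_forall_pair ?_
  intro a ha b hb
  rcases eq_or_ne a b with rfl | hab
  · exact ⟨{a}, by simpa using ha, rfl, rfl, isPreconnected_singleton⟩
  let c := (2 : ℝ)⁻¹ • (a + b)
  let x := (2 : ℝ)⁻¹ • (b - a)
  have Ia : c - x = a := by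
    simp only [c, x]
    module
  have Ib : c + x = b := by
    simp only [c, x]
    module
  have hc : c ∈ D := by
    have := hconv ha.1 hb.1 (a := (2 : ℝ)⁻¹) (b := (2 : ℝ)⁻¹) (by norm_num) (by norm_num)
      (by norm_num)
    simpa [c, smul_add] using this
  have x_ne_zero : x ≠ 0 := by simpa [x] using sub_ne_zero.2 hab.symm
  obtain ⟨y, hy⟩ : ∃ y, LinearIndependent ℝ ![x, y] :=
    exists_linearIndependent_pair_of_one_lt_rank h x_ne_zero
  have A : Set.Countable {t : ℝ | ([c + x -[ℝ] c + t • y] ∩ S).Nonempty} := by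
    apply countable_ofPred_nonempty_of_disjoint _ (fun t ↦ inter_subset_right) hS
    intro t t' htt'
    apply disjoint_iff_inter_eq_empty.2
    have N : {c + x} ∩ S = ∅ := by
      simpa only [singleton_inter_eq_empty, mem_compl_iff, Ib] using hb.2
    rw [inter_assoc, inter_comm S, inter_assoc, inter_self, ← inter_assoc, ← subset_empty_iff, ← N]
    apply inter_subset_inter_left
    apply Eq.subset
    apply segment_inter_eq_endpoint_of_linearIndependent_of_ne hy htt'.symm
  have B : Set.Countable {t : ℝ | ([c - x -[ℝ] c + t • y] ∩ S).Nonempty} := by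
    apply countable_ofPred_nonempty_of_disjoint _ (fun t ↦ inter_subset_right) hS
    intro t t' htt'
    apply disjoint_iff_inter_eq_empty.2
    have N : {c - x} ∩ S = ∅ := by
      simpa only [singleton_inter_eq_empty, mem_compl_iff, Ia] using ha.2
    rw [inter_assoc, inter_comm S, inter_assoc, inter_self, ← inter_assoc, ← subset_empty_iff, ← N]
    apply inter_subset_inter_left
    rw [sub_eq_add_neg _ x]
    apply Eq.subset
    apply segment_inter_eq_endpoint_of_linearIndependent_of_ne _ htt'.symm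
    convert! hy.units_smul ![-1, 1]
    simp [← List.ofFn_inj]
  have hO : IsOpen {t : ℝ | c + t • y ∈ D} := by
    have hcont : Continuous fun t : ℝ => c + t • y := by fun_prop
    exact hD.preimage hcont
  have hne : {t : ℝ | c + t • y ∈ D}.Nonempty := ⟨0, by simpa using hc⟩
  obtain ⟨t, htD, ht⟩ := ((A.union B).dense_compl ℝ).inter_open_nonempty _ hO hne
  have htD' : c + t • y ∈ D := htD
  simp only [compl_union, mem_inter_iff, mem_compl_iff, mem_ofPred_eq, not_nonempty_iff_eq_empty]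
    at ht
  refine ⟨[a -[ℝ] c + t • y] ∪ [b -[ℝ] c + t • y], ?_, Or.inl (left_mem_segment ℝ _ _),
    Or.inr (left_mem_segment ℝ _ _), ?_⟩
  · rintro z (hz | hz)
    · refine ⟨hconv.segment_subset ha.1 htD' hz, fun hzS => ?_⟩
      have : z ∈ ([c - x -[ℝ] c + t • y] ∩ S) := ⟨by rw [Ia]; exact hz, hzS⟩
      rw [ht.2] at this
      exact this
    · refine ⟨hconv.segment_subset hb.1 htD' hz, fun hzS => ?_⟩
      have : z ∈ ([c + x -[ℝ] c + t • y] ∩ S) := ⟨by rw [Ib]; exact hz, hzS⟩
      rw [ht.1] at this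
      exact this
  · refine IsPreconnected.union (c + t • y) (right_mem_segment ℝ _ _) (right_mem_segment ℝ _ _)
      ?_ ?_
    · exact (convex_segment _ _).isPreconnected
    · exact (convex_segment _ _).isPreconnected

end Pool.Agent.Lib.MP_c20824_pr
end

section

/-!
# Geodesic interpolation in the upper half-plane and convexity of half-planes
-/

namespace Pool.Agent.Lib.MP_c20824_pr

open UpperHalfPlane
open scoped UpperHalfPlane

/-- The point dividing the geodesic from `z` to `w`, characterised by its distances to all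
points. -/
lemma exists_interp (z w : ℍ) (r₁ r₂ : ℝ) (h1 : 0 ≤ r₁) (h2 : 0 ≤ r₂) (hpos : 0 < r₁ + r₂)
    (h : r₁ + r₂ = dist z w) :
    ∃ m : ℍ, ∀ p : ℍ, Real.cosh (dist m p) =
      (Real.sinh r₂ / Real.sinh (r₁ + r₂)) * Real.cosh (dist z p) +
      (Real.sinh r₁ / Real.sinh (r₁ + r₂)) * Real.cosh (dist w p) := by
  have hD : 0 < Real.sinh (r₁ + r₂) := Real.sinh_pos_iff.mpr hpos
  obtain ⟨s, hs⟩ : ∃ s, s = Real.sinh r₂ / Real.sinh (r₁ + r₂) := ⟨_, rfl⟩
  obtain ⟨t, ht⟩ : ∃ t, t = Real.sinh r₁ / Real.sinh (r₁ + r₂) := ⟨_, rfl⟩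
  rw [← hs, ← ht]
  have hs0 : 0 ≤ s := by rw [hs]; exact div_nonneg (Real.sinh_nonneg_iff.mpr h2) hD.le
  have ht0 : 0 ≤ t := by rw [ht]; exact div_nonneg (Real.sinh_nonneg_iff.mpr h1) hD.le
  have hst : 0 < s + t := by
    rcases h1.lt_or_eq with h1' | h1'
    · have : 0 < t := by rw [ht]; exact div_pos (Real.sinh_pos_iff.mpr h1') hD
      linarith
    · have h2' : 0 < r₂ := by linarith
      have : 0 < s := by rw [hs]; exact div_pos (Real.sinh_pos_iff.mpr h2') hD
      linarith
  have hid : s ^ 2 + t ^ 2 + 2 * s * t * Real.cosh (dist z w) = 1 := by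
    rw [← h, hs, ht]
    have e1 := Real.sinh_add r₁ r₂
    have e2 := Real.cosh_add r₁ r₂
    have e3 := Real.cosh_sq r₁
    have e4 := Real.cosh_sq r₂
    have hne : Real.sinh (r₁ + r₂) ≠ 0 := hD.ne'
    field_simp
    rw [e2, e1]
    ring_nf
    rw [e3, e4]
    ring
  have hzi := z.im_pos
  have hwi := w.im_pos
  have hcosh := cosh_dist' z w
  obtain ⟨A, hA⟩ : ∃ A, A = s / z.im + t / w.im := ⟨_, rfl⟩
  obtain ⟨B, hB⟩ : ∃ B, B = s * z.re / z.im + t * w.re / w.im := ⟨_, rfl⟩
  obtain ⟨C, hC⟩ : ∃ C, C = s * (z.re ^ 2 + z.im ^ 2) / z.im + t * (w.re ^ 2 + w.im ^ 2) / w.im :=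
    ⟨_, rfl⟩
  have hApos : 0 < A := by
    rw [hA]
    have a1 : 0 ≤ s / z.im := div_nonneg hs0 hzi.le
    have a2 : 0 ≤ t / w.im := div_nonneg ht0 hwi.le
    rcases hs0.lt_or_eq with h' | h'
    · have : 0 < s / z.im := div_pos h' hzi
      linarith
    · have : 0 < t := by linarith
      have : 0 < t / w.im := div_pos this hwi
      linarith
  have hABC : A * C = B ^ 2 + 1 := by
    rw [hcosh] at hid
    have hz0 : z.im ≠ 0 := hzi.ne'
    have hw0 : w.im ≠ 0 := hwi.ne'
    rw [hA, hB, hC]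
    field_simp
    field_simp at hid
    linear_combination (z.im * w.im) * hid
  have hmim : 0 < (⟨B / A, 1 / A⟩ : ℂ).im := by
    simpa using hApos
  refine ⟨⟨⟨B / A, 1 / A⟩, hmim⟩, fun p => ?_⟩
  have hpi := p.im_pos
  rw [cosh_dist', cosh_dist', cosh_dist']
  have e1 : (⟨⟨B / A, 1 / A⟩, hmim⟩ : ℍ).re = B / A := rfl
  have e2 : (⟨⟨B / A, 1 / A⟩, hmim⟩ : ℍ).im = 1 / A := rfl
  rw [e1, e2]
  have step : ((B / A - p.re) ^ 2 + (1 / A) ^ 2 + p.im ^ 2) / (2 * (1 / A) * p.im)
      = (C - 2 * B * p.re + A * (p.re ^ 2 + p.im ^ 2)) / (2 * p.im) := by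
    have hA0 : A ≠ 0 := hApos.ne'
    have hp0 : p.im ≠ 0 := hpi.ne'
    rw [div_eq_div_iff (by positivity) (by positivity)]
    field_simp
    linear_combination (-1) * hABC
  rw [step, hA, hB, hC]
  have hz0 : z.im ≠ 0 := hzi.ne'
  have hw0 : w.im ≠ 0 := hwi.ne'
  have hp0 : p.im ≠ 0 := hpi.ne'
  field_simp
  ring

lemma dist_eq_of_cosh_eq {z w : ℍ} {r : ℝ} (hr : 0 ≤ r)
    (h : Real.cosh (dist z w) = Real.cosh r) : dist z w = r := by
  exact Real.cosh_strictMonoOn.injOn (Set.mem_Ici.mpr dist_nonneg) (Set.mem_Ici.mpr hr) h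

lemma cosh_combo {r₁ r₂ : ℝ} (hne : Real.sinh (r₁ + r₂) ≠ 0) :
    (Real.sinh r₂ / Real.sinh (r₁ + r₂)) * Real.cosh r₁ +
      (Real.sinh r₁ / Real.sinh (r₁ + r₂)) * Real.cosh r₂ = 1 := by
  field_simp
  rw [Real.sinh_add]; ring

lemma cosh_combo' {r₁ r₂ : ℝ} (hne : Real.sinh (r₁ + r₂) ≠ 0) :
    (Real.sinh r₂ / Real.sinh (r₁ + r₂)) * 1 +
      (Real.sinh r₁ / Real.sinh (r₁ + r₂)) * Real.cosh (r₁ + r₂) = Real.cosh r₁ := by
  have e3 := Real.cosh_sq r₁
  field_simp
  rw [Real.cosh_add, Real.sinh_add]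
  linear_combination (-Real.sinh r₂) * e3

/-- Existence of a point at prescribed distance on the geodesic from `z` to `w`. -/
lemma exists_between (z w : ℍ) {r : ℝ} (h0 : 0 ≤ r) (h1 : r ≤ dist z w) :
    ∃ m : ℍ, dist z m = r ∧ dist m w = dist z w - r := by
  rcases (h0.trans h1).lt_or_eq with hpos | hzero
  · have hsum : r + (dist z w - r) = dist z w := by ring
    obtain ⟨m, hm⟩ := exists_interp z w r (dist z w - r) h0 (by linarith) (by linarith) hsum
    have hne : Real.sinh (r + (dist z w - r)) ≠ 0 := by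
      rw [hsum]; exact (Real.sinh_pos_iff.mpr hpos).ne'
    have c1 := cosh_combo' (r₁ := r) (r₂ := dist z w - r) hne
    have c2 := cosh_combo' (r₁ := dist z w - r) (r₂ := r) (by rw [add_comm]; exact hne)
    have hne' : Real.sinh (dist z w) ≠ 0 := by rwa [hsum] at hne
    refine ⟨m, ?_, ?_⟩
    · rw [dist_comm]
      apply dist_eq_of_cosh_eq h0
      rw [hm z, dist_self, Real.cosh_zero, dist_comm w z, ← c1]
      rw [hsum]
    · apply dist_eq_of_cosh_eq (by linarith)
      rw [hm w, dist_self, Real.cosh_zero, ← c2]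
      rw [show dist z w - r + r = dist z w by ring, hsum]
      ring
  · refine ⟨z, ?_, ?_⟩
    · have : r = 0 := by linarith
      rw [this, dist_self]
    · have : r = 0 := by linarith
      rw [this, sub_zero]

/-- Half-planes are geodesically convex. -/
lemma halfPlane_convex {z w u a b : ℍ} (hu : u ∈ hypSegment z w) (hz : dist z a ≤ dist z b)
    (hw : dist w a ≤ dist w b) : dist u a ≤ dist u b := by
  have hu' : dist z u + dist u w = dist z w := hu
  rcases (dist_nonneg : 0 ≤ dist z w).lt_or_eq with hpos | hzero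
  · obtain ⟨m, hm⟩ := exists_interp z w (dist z u) (dist u w) dist_nonneg dist_nonneg
      (by rw [hu']; exact hpos) hu'
    have hDpos : 0 < Real.sinh (dist z u + dist u w) := by
      rw [hu']; exact Real.sinh_pos_iff.mpr hpos
    have hmu : m = u := by
      have : dist m u = 0 := by
        apply dist_eq_of_cosh_eq le_rfl
        rw [hm u, Real.cosh_zero, dist_comm w u]
        exact cosh_combo hDpos.ne'
      exact dist_eq_zero.mp this
    subst hmu
    have hs0 : 0 ≤ Real.sinh (dist m w) / Real.sinh (dist z m + dist m w) :=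
      div_nonneg (Real.sinh_nonneg_iff.mpr dist_nonneg) hDpos.le
    have ht0 : 0 ≤ Real.sinh (dist z m) / Real.sinh (dist z m + dist m w) :=
      div_nonneg (Real.sinh_nonneg_iff.mpr dist_nonneg) hDpos.le
    have key : Real.cosh (dist m a) ≤ Real.cosh (dist m b) := by
      rw [hm a, hm b]
      have k1 : Real.cosh (dist z a) ≤ Real.cosh (dist z b) := by
        rw [Real.cosh_le_cosh, abs_of_nonneg dist_nonneg, abs_of_nonneg dist_nonneg]; exact hz
      have k2 : Real.cosh (dist w a) ≤ Real.cosh (dist w b) := by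
        rw [Real.cosh_le_cosh, abs_of_nonneg dist_nonneg, abs_of_nonneg dist_nonneg]; exact hw
      gcongr
    rwa [Real.cosh_le_cosh, abs_of_nonneg dist_nonneg, abs_of_nonneg dist_nonneg] at key
  · have h1 : dist z u = 0 := by
      have := dist_nonneg (x := z) (y := u)
      have := dist_nonneg (x := u) (y := w)
      linarith
    rw [dist_eq_zero] at h1
    rwa [← h1]

lemma hypSegment_subset_cell {X : Set ℍ} {p z w : ℍ} (hz : z ∈ cell X p) (hw : w ∈ cell X p) :
    hypSegment z w ⊆ cell X p := fun _ hu q hq => halfPlane_convex hu (hz q hq) (hw q hq)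

/-- Two distinct sites whose cells have at least two common points are adjacent. -/
lemma adj_of_two_points {X : Set ℍ} {p q : X} (hpq : p ≠ q) {z w : ℍ} (hzw : z ≠ w)
    (hz : z ∈ cell X p ∩ cell X q) (hw : w ∈ cell X p ∩ cell X q) : (voronoiGraph X).Adj p q :=
  ⟨hpq, z, w, hzw, fun _ hu =>
    ⟨hypSegment_subset_cell hz.1 hw.1 hu, hypSegment_subset_cell hz.2 hw.2 hu⟩⟩

lemma left_mem_hypSegment (z w : ℍ) : z ∈ hypSegment z w := by
  simp [hypSegment]

lemma right_mem_hypSegment (z w : ℍ) : w ∈ hypSegment z w := by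
  simp [hypSegment]

end Pool.Agent.Lib.MP_c20824_pr
end

section

/-!
# Voronoi tessellations of locally finite subsets of the hyperbolic plane: connectivity of the
dual graph inside regions
-/

namespace Pool.Agent.Lib.MP_c20824_pr

open UpperHalfPlane Set Metric
open scoped UpperHalfPlane

/-- Locally finite subsets of the hyperbolic plane. -/
def LocFin (X : Set ℍ) : Prop := ∀ (z : ℍ) (r : ℝ), (X ∩ closedBall z r).Finite

variable {X : Set ℍ}

lemma isClosed_cell (X : Set ℍ) (p : ℍ) : IsClosed (cell X p) := by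
  have : cell X p = ⋂ q ∈ X, {z | dist z p ≤ dist z q} := by
    ext z; simp [cell]
  rw [this]
  exact isClosed_biInter fun q _ => isClosed_le (by fun_prop) (by fun_prop)

lemma exists_nearest (hX : LocFin X) (hne : X.Nonempty) (z : ℍ) : ∃ p : X, z ∈ cell X p := by
  obtain ⟨p₀, hp₀⟩ := hne
  have hfin := hX z (dist z p₀)
  have hne' : (X ∩ closedBall z (dist z p₀)).Nonempty :=
    ⟨p₀, hp₀, by rw [mem_closedBall, dist_comm]⟩
  obtain ⟨p, hp, hmin⟩ := hfin.exists_minimalFor (fun q => dist z q) _ hne'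
  refine ⟨⟨p, hp.1⟩, fun q hq => ?_⟩
  by_cases hqb : q ∈ closedBall z (dist z p₀)
  · rcases le_total (dist z p) (dist z q) with h | h
    · exact h
    · exact hmin ⟨hq, hqb⟩ h
  · have h1 : dist z p₀ < dist z q := by
      rw [mem_closedBall, not_le, dist_comm q z] at hqb; exact hqb
    have h2 : dist z p ≤ dist z p₀ := by
      have := hp.2; rw [mem_closedBall, dist_comm] at this; exact this
    exact h2.trans h1.le

lemma locallyFinite_cells (hX : LocFin X) : LocallyFinite fun p : X => cell X p := by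
  intro z
  refine ⟨ball z 1, ball_mem_nhds z one_pos, ?_⟩
  rcases X.eq_empty_or_nonempty with h | ⟨p₀, hp₀⟩
  · subst h
    exact Set.toFinite _
  · have hfin := hX z (2 + dist z p₀)
    refine (hfin.preimage (f := ((↑) : X → ℍ)) Subtype.val_injective.injOn).subset ?_
    rintro p ⟨w, hwp, hwz⟩
    refine ⟨p.2, ?_⟩
    rw [mem_closedBall]
    have h1 : dist w p ≤ dist w p₀ := hwp p₀ hp₀
    have h2 : dist w z < 1 := hwz
    have h3 := dist_triangle (p : ℍ) w z
    have h4 := dist_triangle w z p₀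
    rw [dist_comm (p : ℍ) w] at h3
    linarith

lemma isClosed_iUnion_cells (hX : LocFin X) (A : Set X) : IsClosed (⋃ p ∈ A, cell X p) := by
  have h := (locallyFinite_cells hX).comp_injective (g := ((↑) : A → X)) Subtype.val_injective
  have h2 := h.isClosed_iUnion fun i => isClosed_cell X _
  have h3 : (⋃ i : A, ((fun p : X => cell X p) ∘ ((↑) : A → X)) i) = ⋃ p ∈ A, cell X p := by
    ext z; simp
  rw [← h3]; exact h2

lemma LocFin.countable (hX : LocFin X) : X.Countable := by
  have : X ⊆ ⋃ n : ℕ, X ∩ closedBall (UpperHalfPlane.I) n := by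
    intro x hx
    obtain ⟨n, hn⟩ := exists_nat_ge (dist x UpperHalfPlane.I)
    exact mem_iUnion.mpr ⟨n, hx, hn⟩
  exact (countable_iUnion fun n : ℕ => (hX UpperHalfPlane.I n).countable).mono this

lemma open_diff_countable_nonempty {O S : Set ℍ} (hO : IsOpen O) (hne : O.Nonempty)
    (hS : S.Countable) : (O \ S).Nonempty := by
  have hO' : IsOpen (((↑) : ℍ → ℂ) '' O) := isOpenEmbedding_coe.isOpenMap _ hO
  have hS' : (((↑) : ℍ → ℂ) '' S).Countable := hS.image _
  obtain ⟨z, hz1, hz2⟩ := (hS'.dense_compl ℝ).inter_open_nonempty _ hO' (hne.image _)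
  obtain ⟨w, hw, rfl⟩ := hz1
  exact ⟨w, hw, fun h => hz2 ⟨w, h, rfl⟩⟩

/-- A site lies in the interior of its own cell. -/
lemma exists_open_subset_cell (hX : LocFin X) (p : X) :
    ∃ O : Set ℍ, IsOpen O ∧ (p : ℍ) ∈ O ∧ O ⊆ cell X p := by
  refine ⟨(⋃ q ∈ ({p}ᶜ : Set X), cell X q)ᶜ, (isClosed_iUnion_cells hX _).isOpen_compl, ?_, ?_⟩
  · intro h
    simp only [mem_iUnion] at h
    obtain ⟨q, hq, hpq⟩ := h
    have h1 := hpq p p.2
    rw [dist_self] at h1
    have h2 : (p : ℍ) = q := dist_le_zero.mp h1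
    exact hq (Subtype.ext h2.symm)
  · intro z hz
    obtain ⟨q, hq⟩ := exists_nearest hX ⟨p, p.2⟩ z
    by_cases hqp : q = p
    · rwa [hqp] at hq
    · exact absurd (mem_biUnion (show q ∈ ({p}ᶜ : Set X) from hqp) hq) hz

/-- A region that stays preconnected after removal of any countable set. -/
def Robust (D : Set ℍ) : Prop := IsOpen D ∧ ∀ S : Set ℍ, S.Countable → IsPreconnected (D \ S)

theorem exists_walk_of_region (hX : LocFin X) {D : Set ℍ} (hD : Robust D) {a b : X}
    (ha : (a : ℍ) ∈ D) (hb : (b : ℍ) ∈ D) :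
    ∃ w : (voronoiGraph X).Walk a b, ∀ v ∈ w.support, (cell X v ∩ D).Nonempty := by
  classical
  let A : Set X := {p | ∃ w : (voronoiGraph X).Walk a p, ∀ v ∈ w.support,
    (cell X v ∩ D).Nonempty}
  by_contra hbA
  have hself : ∀ p : X, (p : ℍ) ∈ cell X p := fun p q _ => by
    rw [dist_self]; exact dist_nonneg
  have haA : a ∈ A := ⟨SimpleGraph.Walk.nil, fun v hv => by
    rw [SimpleGraph.Walk.mem_support_nil_iff] at hv
    subst hv
    exact ⟨_, hself _, ha⟩⟩
  have hbA' : b ∉ A := hbA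
  let T : Set X := {p | (cell X p ∩ D).Nonempty ∧ p ∉ A}
  have hbT : b ∈ T := ⟨⟨_, hself _, hb⟩, hbA'⟩
  set U := ⋃ p ∈ A, cell X p with hU
  set W := ⋃ p ∈ T, cell X p with hW
  have hUc : IsClosed U := isClosed_iUnion_cells hX A
  have hWc : IsClosed W := isClosed_iUnion_cells hX T
  have hSc : (U ∩ W).Countable := by
    have : Countable X := hX.countable.to_subtype
    have hsub : U ∩ W ⊆ ⋃ (p : X) (q : X), {z | p ∈ A ∧ q ∈ T ∧ z ∈ cell X p ∩ cell X q} := by
      rintro z ⟨hzU, hzW⟩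
      simp only [hU, hW, mem_iUnion] at hzU hzW
      obtain ⟨p, hp, hzp⟩ := hzU
      obtain ⟨q, hq, hzq⟩ := hzW
      exact mem_iUnion.mpr ⟨p, mem_iUnion.mpr ⟨q, hp, hq, hzp, hzq⟩⟩
    refine Set.Countable.mono hsub (countable_iUnion fun p => countable_iUnion fun q => ?_)
    refine Set.Subsingleton.countable ?_
    rintro z ⟨hpA, hqT, hz⟩ w ⟨-, -, hw⟩
    by_contra hzw
    have hpq : p ≠ q := by
      rintro rfl; exact hqT.2 hpA
    have hadj := adj_of_two_points hpq hzw hz hw
    obtain ⟨walk, hwalk⟩ := hpA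
    refine hqT.2 ⟨walk.concat hadj, fun v hv => ?_⟩
    rw [SimpleGraph.Walk.support_concat] at hv
    rw [List.mem_append] at hv
    rcases hv with hv | hv
    · exact hwalk v hv
    · rw [List.mem_singleton] at hv
      rw [hv]; exact hqT.1
  have hcov : D \ (U ∩ W) ⊆ U ∪ W := by
    rintro z ⟨hzD, -⟩
    obtain ⟨p, hp⟩ := exists_nearest hX ⟨a, a.2⟩ z
    by_cases hpA : p ∈ A
    · exact Or.inl (mem_biUnion hpA hp)
    · exact Or.inr (mem_biUnion (show p ∈ T from ⟨⟨z, hp, hzD⟩, hpA⟩) hp)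
  have hne1 : ((D \ (U ∩ W)) ∩ U).Nonempty := by
    obtain ⟨O, hO, haO, hOsub⟩ := exists_open_subset_cell hX a
    obtain ⟨z, ⟨hzO, hzD⟩, hzS⟩ := open_diff_countable_nonempty (hO.inter hD.1) ⟨_, haO, ha⟩ hSc
    exact ⟨z, ⟨hzD, hzS⟩, mem_biUnion haA (hOsub hzO)⟩
  have hne2 : ((D \ (U ∩ W)) ∩ W).Nonempty := by
    obtain ⟨O, hO, hbO, hOsub⟩ := exists_open_subset_cell hX b
    obtain ⟨z, ⟨hzO, hzD⟩, hzS⟩ := open_diff_countable_nonempty (hO.inter hD.1) ⟨_, hbO, hb⟩ hSc
    exact ⟨z, ⟨hzD, hzS⟩, mem_biUnion hbT (hOsub hzO)⟩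
  obtain ⟨z, hz1, hz2⟩ := isPreconnected_closed_iff.mp (hD.2 _ hSc) U W hUc hWc hcov hne1 hne2
  exact hz1.2 hz2

/-- A region of `ℍ` given by a convex open subset of `ℂ` is robust. -/
lemma robust_of_convex {D : Set ℂ} (hD : IsOpen D) (hconv : Convex ℝ D)
    (hpos : ∀ z ∈ D, 0 < z.im) : Robust (((↑) : ℍ → ℂ) ⁻¹' D) := by
  refine ⟨hD.preimage continuous_coe, fun S hS => ?_⟩
  rw [← isEmbedding_coe.isInducing.isPreconnected_image]
  have : ((↑) : ℍ → ℂ) '' (((↑) : ℍ → ℂ) ⁻¹' D \ S) = D \ (((↑) : ℍ → ℂ) '' S) := by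
    ext z
    constructor
    · rintro ⟨w, ⟨hwD, hwS⟩, rfl⟩
      refine ⟨hwD, ?_⟩
      rintro ⟨w', hw', he⟩
      exact hwS (by rwa [UpperHalfPlane.coe_injective he] at hw')
    · rintro ⟨hzD, hzS⟩
      refine ⟨⟨z, hpos z hzD⟩, ⟨hzD, fun h => hzS ⟨_, h, rfl⟩⟩, rfl⟩
  rw [this]
  exact isPreconnected_convex_open_diff_countable hD hconv (hS.image _)

lemma robust_univ : Robust (univ : Set ℍ) := by
  have h := robust_of_convex (D := {z : ℂ | 0 < z.im}) (isOpen_lt continuous_const
    Complex.continuous_im) (convex_halfSpace_im_gt 0) (fun z hz => hz)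
  have h2 : ((↑) : ℍ → ℂ) ⁻¹' {z : ℂ | 0 < z.im} = univ := by
    ext z; simpa using z.im_pos
  rwa [h2] at h

/-- The dual graph of the Voronoi tessellation of a nonempty locally finite set is connected. -/
theorem voronoiGraph_connected (hX : LocFin X) (hne : X.Nonempty) :
    (voronoiGraph X).Connected := by
  have : Nonempty X := hne.to_subtype
  refine SimpleGraph.Connected.mk fun a b => ?_
  obtain ⟨w, -⟩ := exists_walk_of_region hX robust_univ (mem_univ (a : ℍ)) (mem_univ (b : ℍ))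
  exact ⟨w⟩

end Pool.Agent.Lib.MP_c20824_pr
end

section

/-!
# A patch of the hyperbolic plane filled by a fine mesh of sites violates thinness
-/

namespace Pool.Agent.Lib.MP_c20824_pr

open UpperHalfPlane Set Metric
open scoped UpperHalfPlane

variable {X : Set ℍ}

/-- The coordinate rectangle `[a, b) × [c, d)`. -/
def rect (a b c d : ℝ) : Set ℍ := {z | a ≤ z.re ∧ z.re < b ∧ c ≤ z.im ∧ z.im < d}

/-- The mesh square of side `1 / n` with indices `i`, `j` in the region
`[s, s + 3) × [1, 4)`. -/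
def sq (s : ℝ) (n i j : ℕ) : Set ℍ :=
  rect (s + i / n) (s + (i + 1) / n) (1 + j / n) (1 + (j + 1) / n)

/-- Each mesh square contains exactly one site. -/
def Patch (X : Set ℍ) (s : ℝ) (n : ℕ) : Prop :=
  ∀ i < 3 * n, ∀ j < 3 * n, (X ∩ sq s n i j).encard = 1

lemma abs_re_sub_le (z w : ℍ) : |z.re - w.re| ≤ dist (z : ℂ) w := by
  have := Complex.abs_re_le_norm ((z : ℂ) - w)
  simpa [Complex.dist_eq] using this

lemma abs_im_sub_le (z w : ℍ) : |z.im - w.im| ≤ dist (z : ℂ) w := by
  have := Complex.abs_im_le_norm ((z : ℂ) - w)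
  simpa [Complex.dist_eq] using this

lemma dist_coe_le_abs_add (z w : ℍ) : dist (z : ℂ) w ≤ |z.re - w.re| + |z.im - w.im| := by
  have := Complex.norm_le_abs_re_add_abs_im ((z : ℂ) - w)
  simpa [Complex.dist_eq] using this

lemma dist_le_dist_coe {z w : ℍ} (hz : 1 ≤ z.im) (hw : 1 ≤ w.im) : dist z w ≤ dist (z : ℂ) w := by
  refine (dist_le_dist_coe_div_sqrt z w).trans ?_
  apply div_le_self dist_nonneg
  rw [Real.one_le_sqrt]
  nlinarith

lemma dist_coe_le_eight {z w : ℍ} (hw : w.im ≤ 4) (h : dist z w ≤ 1) :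
    dist (z : ℂ) w ≤ 8 * dist z w := by
  have h1 := dist_coe_le z w
  have h0 : 0 ≤ dist z w := dist_nonneg
  have h2 := Real.abs_exp_sub_one_le (x := dist z w) (by rwa [abs_of_nonneg h0])
  rw [abs_of_nonneg h0, abs_of_nonneg (by linarith [Real.add_one_le_exp (dist z w)])] at h2
  have h3 := w.im_pos
  nlinarith

lemma exists_sq {s : ℝ} {n : ℕ} (hn : 0 < n) {z : ℍ} (hz : z ∈ rect s (s + 3) 1 4) :
    ∃ i < 3 * n, ∃ j < 3 * n, z ∈ sq s n i j := by
  obtain ⟨h1, h2, h3, h4⟩ := hz
  have hn' : (0 : ℝ) < n := by exact_mod_cast hn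
  have a0 : 0 ≤ (z.re - s) * n := mul_nonneg (by linarith) hn'.le
  have b0 : 0 ≤ (z.im - 1) * n := mul_nonneg (by linarith) hn'.le
  have a1 := Nat.floor_le a0
  have a2 := Nat.lt_floor_add_one ((z.re - s) * n)
  have b1 := Nat.floor_le b0
  have b2 := Nat.lt_floor_add_one ((z.im - 1) * n)
  refine ⟨⌊(z.re - s) * n⌋₊, ?_, ⌊(z.im - 1) * n⌋₊, ?_, ?_, ?_, ?_, ?_⟩
  · rw [Nat.floor_lt a0]; push_cast; nlinarith
  · rw [Nat.floor_lt b0]; push_cast; nlinarith
  · have : (⌊(z.re - s) * n⌋₊ : ℝ) / n ≤ z.re - s := by rw [div_le_iff₀ hn']; exact a1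
    linarith
  · have : z.re - s < ((⌊(z.re - s) * n⌋₊ : ℝ) + 1) / n := by rw [lt_div_iff₀ hn']; exact a2
    linarith
  · have : (⌊(z.im - 1) * n⌋₊ : ℝ) / n ≤ z.im - 1 := by rw [div_le_iff₀ hn']; exact b1
    linarith
  · have : z.im - 1 < ((⌊(z.im - 1) * n⌋₊ : ℝ) + 1) / n := by rw [lt_div_iff₀ hn']; exact b2
    linarith

lemma Patch.net {s : ℝ} {n : ℕ} (h : Patch X s n) (hn : 0 < n) {z : ℍ}
    (hz : z ∈ rect s (s + 3) 1 4) : ∃ q ∈ X, dist z q ≤ 2 / n := by
  obtain ⟨i, hi, j, hj, hz'⟩ := exists_sq hn hz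
  obtain ⟨q, hq⟩ := Set.encard_eq_one.mp (h i hi j hj)
  have hqX : q ∈ X ∩ sq s n i j := by rw [hq]; exact mem_singleton q
  refine ⟨q, hqX.1, ?_⟩
  obtain ⟨a1, a2, a3, a4⟩ := hz'
  obtain ⟨b1, b2, b3, b4⟩ := hqX.2
  have hn' : (0 : ℝ) < n := by exact_mod_cast hn
  have e1 : ((i : ℝ) + 1) / n = i / n + 1 / n := by ring
  have e2 : ((j : ℝ) + 1) / n = j / n + 1 / n := by ring
  have hj0 : (0 : ℝ) ≤ j / n := by positivity
  refine (dist_le_dist_coe (by linarith [hz.2.2.1]) (by linarith)).trans ?_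
  refine (dist_coe_le_abs_add z q).trans ?_
  have c1 : |z.re - q.re| ≤ 1 / n := by rw [abs_le]; constructor <;> linarith
  have c2 : |z.im - q.im| ≤ 1 / n := by rw [abs_le]; constructor <;> linarith
  have : (2 : ℝ) / n = 1 / n + 1 / n := by ring
  linarith

lemma Patch.card_le {s : ℝ} {n : ℕ} (h : Patch X s n) (hn : 0 < n) (F : Finset X)
    (hF : ∀ p ∈ F, (p : ℍ) ∈ rect s (s + 3) 1 4) : F.card ≤ 9 * n ^ 2 := by
  classical
  have hex : ∀ p : X, ∃ ij : ℕ × ℕ, (p : ℍ) ∈ rect s (s + 3) 1 4 →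
      ij ∈ Finset.range (3 * n) ×ˢ Finset.range (3 * n) ∧ (p : ℍ) ∈ sq s n ij.1 ij.2 := by
    intro p
    by_cases hp : (p : ℍ) ∈ rect s (s + 3) 1 4
    · obtain ⟨i, hi, j, hj, hz'⟩ := exists_sq hn hp
      exact ⟨(i, j), fun _ => ⟨by simp [hi, hj], hz'⟩⟩
    · exact ⟨(0, 0), fun h => absurd h hp⟩
  choose f hf using hex
  have hcard : F.card ≤ (Finset.range (3 * n) ×ˢ Finset.range (3 * n)).card := by
    apply Finset.card_le_card_of_injOn f
    · intro p hp
      exact (hf p (hF p hp)).1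
    · intro p hp q hq hpq
      have h1 := hf p (hF p hp)
      have h2 := hf q (hF q hq)
      rw [← hpq] at h2
      have hij := h1.1
      rw [Finset.mem_product, Finset.mem_range, Finset.mem_range] at hij
      obtain ⟨r, hr⟩ := Set.encard_eq_one.mp (h _ hij.1 _ hij.2)
      have m1 : (p : ℍ) ∈ X ∩ sq s n (f p).1 (f p).2 := ⟨p.2, h1.2⟩
      have m2 : (q : ℍ) ∈ X ∩ sq s n (f p).1 (f p).2 := ⟨q.2, h2.2⟩
      rw [hr, mem_singleton_iff] at m1 m2
      exact Subtype.ext (m1.trans m2.symm)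
  refine hcard.trans (le_of_eq ?_)
  rw [Finset.card_product, Finset.card_range]
  ring

/-- `ε`-net property of the sites in the region `[s, s + 3) × [1, 4)`. -/
def Net (X : Set ℍ) (s ε : ℝ) : Prop := ∀ z ∈ rect s (s + 3) 1 4, ∃ q ∈ X, dist z q ≤ ε

lemma Net.small {s ε : ℝ} (h : Net X s ε) {z p : ℍ} (hz : z ∈ rect s (s + 3) 1 4)
    (hp : z ∈ cell X p) : dist z p ≤ ε := by
  obtain ⟨q, hq, hd⟩ := h z hz
  exact (hp q hq).trans hd

/-- The inner region. -/
def Inner (s : ℝ) (z : ℍ) : Prop := s + 1 / 2 ≤ z.re ∧ z.re ≤ s + 5 / 2 ∧ 3 / 2 ≤ z.im ∧ z.im ≤ 7 / 2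

lemma mem_rect_of_near {s : ℝ} {z p : ℍ} (hp : Inner s p) (h : dist (z : ℂ) p ≤ 2 / 5) :
    z ∈ rect s (s + 3) 1 4 := by
  obtain ⟨h1, h2, h3, h4⟩ := hp
  have a := (abs_re_sub_le z p).trans h
  have b := (abs_im_sub_le z p).trans h
  rw [abs_le] at a b
  exact ⟨by linarith, by linarith, by linarith, by linarith⟩

lemma Net.cell_small {s ε : ℝ} (h : Net X s ε) (hε0 : 0 < ε) (hε : ε ≤ 1 / 40) {z p : ℍ}
    (hp : Inner s p) (hz : z ∈ cell X p) : dist z p ≤ ε := by
  by_contra hcon
  push Not at hcon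
  set r := min (dist z p) (2 * ε) with hr
  have hr1 : ε < r := lt_min hcon (by linarith)
  have hr2 : r ≤ 2 * ε := min_le_right _ _
  have hr3 : r ≤ dist p z := by rw [dist_comm]; exact min_le_left _ _
  obtain ⟨m, hm1, hm2⟩ := exists_between p z (hε0.trans hr1).le hr3
  have hpim : p.im ≤ 4 := by linarith [hp.2.2.2]
  have hmp : dist m p = r := by rw [dist_comm]; exact hm1
  have hmE := dist_coe_le_eight (z := m) hpim (by rw [hmp]; linarith)
  rw [hmp] at hmE
  have hmQ : m ∈ rect s (s + 3) 1 4 := mem_rect_of_near hp (by linarith)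
  have hmcell : m ∈ cell X p := by
    refine hypSegment_subset_cell (z := p) (w := z) ?_ hz ?_
    · intro q _; rw [dist_self]; exact dist_nonneg
    · change dist p m + dist m z = dist p z
      rw [hm1, hm2]; ring
  have := h.small hmQ hmcell
  rw [hmp] at this
  linarith

lemma Net.adj_near {s ε : ℝ} (h : Net X s ε) (hε0 : 0 < ε) (hε : ε ≤ 1 / 40) {p q : X}
    (hp : Inner s p) (hadj : (voronoiGraph X).Adj p q) : dist (q : ℂ) (p : ℂ) ≤ 16 * ε := by
  obtain ⟨-, z, w, -, hsub⟩ := hadj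
  have hz := hsub (left_mem_hypSegment z w)
  have h1 := h.cell_small hε0 hε hp hz.1
  have h2 : dist z q ≤ dist z p := hz.2 p p.2
  have h3 : dist (q : ℍ) p ≤ 2 * ε := by
    have := dist_triangle (q : ℍ) z p
    rw [dist_comm (q : ℍ) z] at this
    linarith
  have h4 := dist_coe_le_eight (z := q) (w := p) (by linarith [hp.2.2.2]) (by linarith)
  linarith

lemma Net.graph_dist_aux {s ε η : ℝ} (h : Net X s ε) (hε0 : 0 < ε) (hε : ε ≤ 1 / 40) {u p : X}
    (w : (voronoiGraph X).Walk u p) (hout : ∀ v : X, ¬ Inner s v → η ≤ dist (v : ℂ) (p : ℂ)) :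
    min (dist (u : ℂ) (p : ℂ)) η ≤ 16 * ε * w.length := by
  induction w with
  | nil => simp
  | @cons u v p' hadj w ih =>
    have ih' := ih hout
    rw [SimpleGraph.Walk.length_cons]
    push_cast
    by_cases hv : Inner s v
    · have h1 := h.adj_near hε0 hε hv hadj.symm
      have h2 := dist_triangle (u : ℂ) v p'
      rcases min_choice (dist (v : ℂ) (p' : ℂ)) η with h3 | h3
      · rw [h3] at ih'
        refine (min_le_left _ _).trans ?_
        linarith
      · rw [h3] at ih'
        refine (min_le_right _ _).trans ?_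
        linarith
    · have h3 : min (dist (v : ℂ) (p' : ℂ)) η = η := min_eq_right (hout v hv)
      rw [h3] at ih'
      refine (min_le_right _ _).trans ?_
      linarith

/-- Graph distances in the patch are bounded below by Euclidean distances. -/
lemma Net.graph_dist {s ε η : ℝ} (h : Net X s ε) (hε0 : 0 < ε) (hε : ε ≤ 1 / 40) {p : X}
    (hout : ∀ v : X, ¬ Inner s v → η ≤ dist (v : ℂ) (p : ℂ)) {m : X}
    (hm : η ≤ dist (m : ℂ) (p : ℂ)) (w : (voronoiGraph X).Walk m p) :
    η ≤ 16 * ε * w.length := by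
  have := h.graph_dist_aux hε0 hε w hout
  rwa [min_eq_right hm] at this

/-- The open coordinate rectangle. -/
def orect (a b c d : ℝ) : Set ℂ := {z | a < z.re ∧ z.re < b ∧ c < z.im ∧ z.im < d}

lemma robust_orect {a b c d : ℝ} (hc : 0 ≤ c) : Robust (((↑) : ℍ → ℂ) ⁻¹' orect a b c d) := by
  apply robust_of_convex
  · apply IsOpen.and (isOpen_lt continuous_const Complex.continuous_re)
    apply IsOpen.and (isOpen_lt Complex.continuous_re continuous_const)
    exact IsOpen.and (isOpen_lt continuous_const Complex.continuous_im)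
      (isOpen_lt Complex.continuous_im continuous_const)
  · have : orect a b c d = {z : ℂ | a < z.re} ∩ ({z : ℂ | z.re < b} ∩
      ({z : ℂ | c < z.im} ∩ {z : ℂ | z.im < d})) := rfl
    rw [this]
    exact (convex_halfSpace_re_gt a).inter ((convex_halfSpace_re_lt b).inter
      ((convex_halfSpace_im_gt c).inter (convex_halfSpace_im_lt d)))
  · intro z hz
    exact hc.trans_lt hz.2.2.1

/-- A site near a prescribed point. -/
lemma Net.site {s ε : ℝ} (h : Net X s ε) (hε : ε ≤ 1 / 400) {x y : ℝ}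
    (hx1 : s ≤ x) (hx2 : x < s + 3) (hy1 : 1 ≤ y) (hy2 : y < 4) :
    ∃ p : X, |(p : ℍ).re - x| ≤ 1 / 50 ∧ |(p : ℍ).im - y| ≤ 1 / 50 := by
  have hy0 : 0 < (⟨x, y⟩ : ℂ).im := by
    change 0 < y
    linarith
  obtain ⟨q, hq, hd⟩ := h ⟨⟨x, y⟩, hy0⟩ ⟨hx1, hx2, hy1, hy2⟩
  have h1 := dist_coe_le_eight (z := q) (w := ⟨⟨x, y⟩, hy0⟩) (by change y ≤ 4; linarith)
    (by rw [dist_comm]; linarith)
  rw [dist_comm q] at h1
  have a := abs_re_sub_le q ⟨⟨x, y⟩, hy0⟩
  have b := abs_im_sub_le q ⟨⟨x, y⟩, hy0⟩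
  exact ⟨⟨q, hq⟩, by change |q.re - x| ≤ _ at a; exact a.trans (by linarith),
    by change |q.im - y| ≤ _ at b; exact b.trans (by linarith)⟩

/-- A vertex whose cell meets the region is near the region. -/
lemma Net.near_orect {s ε : ℝ} (h : Net X s ε) (hε : ε ≤ 1 / 400) {a b c d : ℝ}
    (ha : s ≤ a) (hb : b ≤ s + 3) (hc : 1 ≤ c) (hd : d ≤ 4) {p : X}
    (hp : (cell X p ∩ ((↑) : ℍ → ℂ) ⁻¹' orect a b c d).Nonempty) :
    a - 1 / 50 ≤ (p : ℍ).re ∧ (p : ℍ).re ≤ b + 1 / 50 ∧ c - 1 / 50 ≤ (p : ℍ).im ∧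
      (p : ℍ).im ≤ d + 1 / 50 := by
  obtain ⟨z, hz, hzr⟩ := hp
  obtain ⟨h1, h2, h3, h4⟩ : a < z.re ∧ z.re < b ∧ c < z.im ∧ z.im < d := hzr
  have hs := h.small (z := z) (p := p) ⟨by linarith, by linarith, by linarith, by linarith⟩ hz
  have hE := dist_coe_le_eight (z := p) (w := z) (by linarith) (by rw [dist_comm]; linarith)
  rw [dist_comm (p : ℍ) z] at hE
  have e1 := abs_re_sub_le p z
  have e2 := abs_im_sub_le p z
  have e1' := e1.trans hE
  have e2' := e2.trans hE
  rw [abs_le] at e1' e2'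
  exact ⟨by linarith, by linarith, by linarith, by linarith⟩

/-- The region containing all vertices of the detours. -/
def Mid (s : ℝ) (z : ℍ) : Prop :=
  s + 39 / 50 ≤ z.re ∧ z.re ≤ s + 111 / 50 ∧ 89 / 50 ≤ z.im ∧ z.im ≤ 161 / 50

lemma far_of_re {z w : ℍ} {η : ℝ} (h : η ≤ |z.re - w.re|) : η ≤ dist (z : ℂ) w :=
  h.trans (abs_re_sub_le z w)

lemma far_of_im {z w : ℍ} {η : ℝ} (h : η ≤ |z.im - w.im|) : η ≤ dist (z : ℂ) w :=
  h.trans (abs_im_sub_le z w)

lemma far_of_not_inner {s : ℝ} {m v : ℍ} (hv : Mid s v) (hm : ¬ Inner s m) :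
    1 / 5 ≤ dist (m : ℂ) v := by
  obtain ⟨h1, h2, h3, h4⟩ := hv
  by_contra hcon
  push Not at hcon
  have a := (abs_re_sub_le m v).trans hcon.le
  have b := (abs_im_sub_le m v).trans hcon.le
  rw [abs_le] at a b
  exact hm ⟨by linarith, by linarith, by linarith, by linarith⟩

/-- The detour through a horizontal strip `[c, d]`. -/
lemma Net.detour_walk (hX : LocFin X) {s ε : ℝ} (h : Net X s ε) (hε : ε ≤ 1 / 400)
    {a b : X} (ha1 : |(a : ℍ).re - (s + 1)| ≤ 1 / 50) (ha2 : |(a : ℍ).im - 5 / 2| ≤ 1 / 50)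
    (hb1 : |(b : ℍ).re - (s + 2)| ≤ 1 / 50) (hb2 : |(b : ℍ).im - 5 / 2| ≤ 1 / 50)
    {y : ℝ} (hy1 : 2 ≤ y) (hy2 : y ≤ 3) :
    ∃ w : (voronoiGraph X).Walk a b, ∀ v ∈ w.support, Mid s v ∧
      ((v : ℍ).re ≤ s + 61 / 50 ∨ s + 89 / 50 ≤ (v : ℍ).re ∨ |(v : ℍ).im - y| ≤ 11 / 50) := by
  obtain ⟨l, hl1, hl2⟩ := h.site hε (x := s + 1) (y := y) (by linarith) (by linarith)
    (by linarith) (by linarith)
  obtain ⟨r, hr1, hr2⟩ := h.site hε (x := s + 2) (y := y) (by linarith) (by linarith)
    (by linarith) (by linarith)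
  rw [abs_le] at ha1 ha2 hb1 hb2 hl1 hl2 hr1 hr2
  have memL : ∀ p : X, |(p : ℍ).re - (s + 1)| ≤ 1 / 50 → 99 / 50 ≤ (p : ℍ).im →
      (p : ℍ).im ≤ 151 / 50 →
      (p : ℍ) ∈ ((↑) : ℍ → ℂ) ⁻¹' orect (s + 4 / 5) (s + 6 / 5) (9 / 5) (16 / 5) := by
    intro p h1 h2 h3
    rw [abs_le] at h1
    change s + 4 / 5 < (p : ℍ).re ∧ (p : ℍ).re < s + 6 / 5 ∧ 9 / 5 < (p : ℍ).im ∧
      (p : ℍ).im < 16 / 5
    exact ⟨by linarith, by linarith, by linarith, by linarith⟩
  have memR : ∀ p : X, |(p : ℍ).re - (s + 2)| ≤ 1 / 50 → 99 / 50 ≤ (p : ℍ).im →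
      (p : ℍ).im ≤ 151 / 50 →
      (p : ℍ) ∈ ((↑) : ℍ → ℂ) ⁻¹' orect (s + 9 / 5) (s + 11 / 5) (9 / 5) (16 / 5) := by
    intro p h1 h2 h3
    rw [abs_le] at h1
    change s + 9 / 5 < (p : ℍ).re ∧ (p : ℍ).re < s + 11 / 5 ∧ 9 / 5 < (p : ℍ).im ∧
      (p : ℍ).im < 16 / 5
    exact ⟨by linarith, by linarith, by linarith, by linarith⟩
  have memH : ∀ p : X, s + 9 / 10 ≤ (p : ℍ).re → (p : ℍ).re ≤ s + 21 / 10 →
      |(p : ℍ).im - y| ≤ 1 / 50 →
      (p : ℍ) ∈ ((↑) : ℍ → ℂ) ⁻¹' orect (s + 4 / 5) (s + 11 / 5) (y - 1 / 5) (y + 1 / 5) := by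
    intro p h1 h2 h3
    rw [abs_le] at h3
    change s + 4 / 5 < (p : ℍ).re ∧ (p : ℍ).re < s + 11 / 5 ∧ y - 1 / 5 < (p : ℍ).im ∧
      (p : ℍ).im < y + 1 / 5
    exact ⟨by linarith, by linarith, by linarith, by linarith⟩
  obtain ⟨w1, hw1⟩ := exists_walk_of_region hX
    (robust_orect (a := s + 4 / 5) (b := s + 6 / 5) (c := 9 / 5) (d := 16 / 5) (by norm_num))
    (memL a (by rw [abs_le]; constructor <;> linarith) (by linarith) (by linarith))
    (memL l (by rw [abs_le]; constructor <;> linarith) (by linarith) (by linarith))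
  obtain ⟨w2, hw2⟩ := exists_walk_of_region hX
    (robust_orect (a := s + 4 / 5) (b := s + 11 / 5) (c := y - 1 / 5) (d := y + 1 / 5)
      (by linarith))
    (memH l (by linarith) (by linarith) (by rw [abs_le]; constructor <;> linarith))
    (memH r (by linarith) (by linarith) (by rw [abs_le]; constructor <;> linarith))
  obtain ⟨w3, hw3⟩ := exists_walk_of_region hX
    (robust_orect (a := s + 9 / 5) (b := s + 11 / 5) (c := 9 / 5) (d := 16 / 5) (by norm_num))
    (memR r (by rw [abs_le]; constructor <;> linarith) (by linarith) (by linarith))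
    (memR b (by rw [abs_le]; constructor <;> linarith) (by linarith) (by linarith))
  refine ⟨(w1.append w2).append w3, fun v hv => ?_⟩
  rw [SimpleGraph.Walk.mem_support_append_iff, SimpleGraph.Walk.mem_support_append_iff] at hv
  rcases hv with (hv | hv) | hv
  · obtain ⟨q1, q2, q3, q4⟩ := h.near_orect hε (by linarith) (by linarith) (by norm_num)
      (by norm_num) (hw1 v hv)
    exact ⟨⟨by linarith, by linarith, by linarith, by linarith⟩, Or.inl (by linarith)⟩
  · obtain ⟨q1, q2, q3, q4⟩ := h.near_orect hε (by linarith) (by linarith) (by linarith)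
      (by linarith) (hw2 v hv)
    exact ⟨⟨by linarith, by linarith, by linarith, by linarith⟩,
      Or.inr (Or.inr (by rw [abs_le]; constructor <;> linarith))⟩
  · obtain ⟨q1, q2, q3, q4⟩ := h.near_orect hε (by linarith) (by linarith) (by norm_num)
      (by norm_num) (hw3 v hv)
    exact ⟨⟨by linarith, by linarith, by linarith, by linarith⟩, Or.inr (Or.inl (by linarith))⟩

theorem not_anchoredThin_of_patch (hX : LocFin X) {s : ℝ} {j : ℕ} (hj : 3 ≤ j)
    (hpatch : Patch X s (160 * 2 ^ j)) {δ : ℕ}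
    (hbig : (12 * δ + 4) * (18 + 2 * j) + 1 < 2 * 2 ^ j) (x : X) :
    ¬ AnchoredThin (voronoiGraph X) x δ := by
  classical
  intro hthin
  have hconn : (voronoiGraph X).Connected := voronoiGraph_connected hX ⟨x, x.2⟩
  set n : ℕ := 160 * 2 ^ j with hn
  have hR : (8 : ℝ) ≤ 2 ^ j := by
    calc (8 : ℝ) = 2 ^ 3 := by norm_num
      _ ≤ 2 ^ j := pow_le_pow_right₀ (by norm_num) hj
  have hn0 : 0 < n := by positivity
  have hncast : (n : ℝ) = 160 * 2 ^ j := by rw [hn]; push_cast; ring
  obtain ⟨ε, hεdef⟩ : ∃ ε : ℝ, ε = 2 / n := ⟨_, rfl⟩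
  have hε0 : 0 < ε := by rw [hεdef]; positivity
  have hε1 : 16 * ε * 2 ^ j = 1 / 5 := by
    rw [hεdef, hncast]; field_simp; norm_num
  have hε : ε ≤ 1 / 400 := by nlinarith
  have hε' : ε ≤ 1 / 40 := by linarith
  have hnet : Net X s ε := by
    intro z hz
    rw [hεdef]; exact hpatch.net hn0 hz
  obtain ⟨a, ha1, ha2⟩ := hnet.site hε (x := s + 1) (y := 5 / 2) (by linarith) (by linarith)
    (by norm_num) (by norm_num)
  obtain ⟨b, hb1, hb2⟩ := hnet.site hε (x := s + 2) (y := 5 / 2) (by linarith) (by linarith)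
    (by norm_num) (by norm_num)
  -- the geodesic from a to b and the vertex m on it
  obtain ⟨γ, hγ⟩ := hconn.exists_walk_length_eq_dist a b
  have ha1' := abs_le.mp ha1
  have ha2' := abs_le.mp ha2
  have hb1' := abs_le.mp hb1
  have hex : ∃ t, ¬ (Inner s (γ.getVert t) ∧ ((γ.getVert t : X) : ℍ).re < s + 3 / 2) := by
    refine ⟨γ.length, ?_⟩
    rw [SimpleGraph.Walk.getVert_length]
    rintro ⟨-, h⟩
    linarith
  obtain ⟨t, ht, htmin⟩ : ∃ t, ¬ (Inner s (γ.getVert t) ∧ ((γ.getVert t : X) : ℍ).re < s + 3 / 2) ∧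
      ∀ t' < t, (Inner s (γ.getVert t') ∧ ((γ.getVert t' : X) : ℍ).re < s + 3 / 2) :=
    ⟨Nat.find hex, Nat.find_spec hex, fun t' ht' => not_not.mp (Nat.find_min hex ht')⟩
  have ht0 : t ≠ 0 := by
    rintro rfl
    rw [SimpleGraph.Walk.getVert_zero] at ht
    exact ht ⟨⟨by linarith, by linarith, by linarith, by linarith⟩, by linarith⟩
  have htl : t ≤ γ.length := by
    by_contra hcon
    push Not at hcon
    have := htmin γ.length hcon
    rw [SimpleGraph.Walk.getVert_length] at this
    linarith [this.2]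
  obtain ⟨t', rfl⟩ := Nat.exists_eq_succ_of_ne_zero ht0
  have hu := htmin t' (Nat.lt_succ_self _)
  have hadj := γ.adj_getVert_succ (i := t') (by omega)
  obtain ⟨m, hm⟩ : ∃ m, m = γ.getVert (t' + 1) := ⟨_, rfl⟩
  have hstep := hnet.adj_near hε0 hε' hu.1 hadj
  rw [← hm] at hstep
  have hstep' := (abs_re_sub_le (m : ℍ) (γ.getVert t' : X)).trans hstep
  have hm_cases : ¬ Inner s m ∨ (s + 3 / 2 ≤ (m : ℍ).re ∧ (m : ℍ).re ≤ s + 77 / 50) := by
    by_cases hmI : Inner s m
    · right
      have h1 : ¬ ((m : ℍ).re < s + 3 / 2) := by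
        intro h
        apply ht
        change Inner s (γ.getVert (t' + 1)) ∧ ((γ.getVert (t' + 1) : X) : ℍ).re < s + 3 / 2
        rw [← hm]; exact ⟨hmI, h⟩
      push Not at h1
      refine ⟨h1, ?_⟩
      have := (abs_le.mp hstep').2
      linarith [hu.2]
    · exact Or.inl hmI
  have hgeod : (voronoiGraph X).dist a m + (voronoiGraph X).dist m b =
      (voronoiGraph X).dist a b := by
    have h1 := dist_getVert_of_geod hconn γ hγ (t := t' + 1) (by rw [← hγ]; exact htl)
    rw [← hm] at h1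
    rw [h1.1, h1.2]
    have : t' + 1 ≤ (voronoiGraph X).dist a b := by rw [← hγ]; exact htl
    omega
  -- the detour
  obtain ⟨w, hw⟩ : ∃ w : (voronoiGraph X).Walk a b, ∀ v ∈ w.support, Mid s v ∧
      1 / 5 ≤ dist ((m : ℍ) : ℂ) ((v : ℍ) : ℂ) := by
    rcases hm_cases with hmI | ⟨hm1, hm2⟩
    · obtain ⟨w, hw⟩ := hnet.detour_walk hX hε ha1 ha2 hb1 hb2 (y := 2) le_rfl (by norm_num)
      exact ⟨w, fun v hv => ⟨(hw v hv).1, far_of_not_inner (hw v hv).1 hmI⟩⟩
    · rcases le_total (m : ℍ).im (5 / 2) with hmi | hmi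
      · obtain ⟨w, hw⟩ := hnet.detour_walk hX hε ha1 ha2 hb1 hb2 (y := 3) (by norm_num) le_rfl
        refine ⟨w, fun v hv => ⟨(hw v hv).1, ?_⟩⟩
        rcases (hw v hv).2 with h | h | h
        · apply far_of_re; rw [le_abs]; left; linarith
        · apply far_of_re; rw [le_abs]; right; linarith
        · apply far_of_im
          rw [abs_le] at h
          rw [le_abs]; right; linarith
      · obtain ⟨w, hw⟩ := hnet.detour_walk hX hε ha1 ha2 hb1 hb2 (y := 2) le_rfl (by norm_num)
        refine ⟨w, fun v hv => ⟨(hw v hv).1, ?_⟩⟩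
        rcases (hw v hv).2 with h | h | h
        · apply far_of_re; rw [le_abs]; left; linarith
        · apply far_of_re; rw [le_abs]; right; linarith
        · apply far_of_im
          rw [abs_le] at h
          rw [le_abs]; left; linarith
  -- shorten the detour to a path
  have hsub : ∀ v ∈ w.bypass.support, v ∈ w.support := fun v hv => w.support_bypass_subset_support hv
  have hpath := w.bypass_isPath
  have hlen : w.bypass.length ≤ 2 ^ (18 + 2 * j) := by
    have hnd : w.bypass.support.Nodup := hpath.support_nodup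
    have hc := hpatch.card_le hn0 w.bypass.support.toFinset (by
      intro p hp
      rw [List.mem_toFinset] at hp
      obtain ⟨h1, h2, h3, h4⟩ := (hw p (hsub p hp)).1
      exact ⟨by linarith, by linarith, by linarith, by linarith⟩)
    rw [List.toFinset_card_of_nodup hnd, SimpleGraph.Walk.length_support] at hc
    have e1 : 9 * n ^ 2 ≤ 2 ^ (18 + 2 * j) := by
      rw [hn, pow_add, mul_pow, ← pow_mul, mul_comm j 2]
      have : 9 * (160 ^ 2 * 2 ^ (2 * j)) = 230400 * 2 ^ (2 * j) := by ring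
      rw [this]
      exact Nat.mul_le_mul_right _ (by norm_num)
    omega
  have hfar : ∀ v ∈ w.bypass.support, 2 ^ j ≤ (voronoiGraph X).dist m v := by
    intro v hv
    obtain ⟨hMid, hd⟩ := hw v (hsub v hv)
    obtain ⟨g, hg⟩ := hconn.exists_walk_length_eq_dist m v
    have h1 := hnet.graph_dist hε0 hε' (p := v) (η := 1 / 5)
      (fun u hu => far_of_not_inner hMid hu) hd g
    rw [hg, ← hε1] at h1
    have h2 : (2 : ℝ) ^ j ≤ ((voronoiGraph X).dist m v : ℝ) := by
      have h3 : 0 < 16 * ε := by positivity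
      exact le_of_mul_le_mul_left h1 h3
    exact_mod_cast h2
  have hfinal := detour_of_anchoredThin hconn hthin hgeod w.bypass hlen hfar
  omega

end Pool.Agent.Lib.MP_c20824_pr
end

section

/-!
# Almost surely, some translate of the patch is filled by the mesh
-/

namespace Pool.Agent.Lib.MP_c20824_pr

open UpperHalfPlane Set Metric MeasureTheory ProbabilityTheory
open scoped UpperHalfPlane NNReal ENNReal

lemma measurableSet_rect (a b c d : ℝ) : MeasurableSet (rect a b c d) := by
  have hre : Measurable (fun z : ℍ => z.re) := continuous_re.measurable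
  have him : Measurable (fun z : ℍ => z.im) := continuous_im.measurable
  exact (measurableSet_le measurable_const hre).inter ((measurableSet_lt hre measurable_const).inter
    ((measurableSet_le measurable_const him).inter (measurableSet_lt him measurable_const)))

lemma measurableSet_sq (s : ℝ) (n i j : ℕ) : MeasurableSet (sq s n i j) :=
  measurableSet_rect _ _ _ _

lemma coe_image_rect {a b c d : ℝ} (hc : 0 < c) :
    ((↑) : ℍ → ℂ) '' rect a b c d = {z : ℂ | a ≤ z.re ∧ z.re < b ∧ c ≤ z.im ∧ z.im < d} := by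
  ext z
  constructor
  · rintro ⟨w, hw, rfl⟩
    exact hw
  · intro hz
    exact ⟨⟨z, hc.trans_le hz.2.2.1⟩, hz, rfl⟩

lemma volume_rect_translate {a b c d : ℝ} (hc : 0 < c) (t : ℝ) :
    (volume : Measure ℍ) (rect (a + t) (b + t) c d) = volume (rect a b c d) := by
  rw [volume_eq_lintegral, volume_eq_lintegral, coe_image_rect hc, coe_image_rect hc]
  have hmp : MeasurePreserving (fun z : ℂ => z + (t : ℂ)) volume volume :=
    measurePreserving_add_right volume (t : ℂ)
  have hemb : MeasurableEmbedding (fun z : ℂ => z + (t : ℂ)) := measurableEmbedding_addRight _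
  have h := hmp.setLIntegral_comp_preimage_emb hemb
    (fun z : ℂ => ((((1 / ‖z.im‖₊) ^ 2 : NNReal)) : ℝ≥0∞))
    {z : ℂ | a + t ≤ z.re ∧ z.re < b + t ∧ c ≤ z.im ∧ z.im < d}
  rw [← h]
  have hpre : (fun z : ℂ => z + (t : ℂ)) ⁻¹'
      {z : ℂ | a + t ≤ z.re ∧ z.re < b + t ∧ c ≤ z.im ∧ z.im < d} =
      {z : ℂ | a ≤ z.re ∧ z.re < b ∧ c ≤ z.im ∧ z.im < d} := by
    ext z
    simp
  rw [hpre]
  simp

lemma volume_rect_pos {a b c d : ℝ} (hab : a < b) (hc : 0 < c) (hcd : c < d) :
    0 < (volume : Measure ℍ) (rect a b c d) := by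
  rw [volume_eq_lintegral, coe_image_rect hc, lintegral_pos_iff_support]
  · rw [Measure.restrict_apply' (by
      apply MeasurableSet.inter (measurableSet_le measurable_const Complex.measurable_re)
      apply MeasurableSet.inter (measurableSet_lt Complex.measurable_re measurable_const)
      exact MeasurableSet.inter (measurableSet_le measurable_const Complex.measurable_im)
        (measurableSet_lt Complex.measurable_im measurable_const))]
    have hopen : IsOpen (orect a b c d) := by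
      apply IsOpen.and (isOpen_lt continuous_const Complex.continuous_re)
      apply IsOpen.and (isOpen_lt Complex.continuous_re continuous_const)
      exact IsOpen.and (isOpen_lt continuous_const Complex.continuous_im)
        (isOpen_lt Complex.continuous_im continuous_const)
    have hne : (orect a b c d).Nonempty :=
      ⟨⟨(a + b) / 2, (c + d) / 2⟩, by
        change a < (a + b) / 2 ∧ (a + b) / 2 < b ∧ c < (c + d) / 2 ∧ (c + d) / 2 < d
        exact ⟨by linarith, by linarith, by linarith, by linarith⟩⟩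
    refine (hopen.measure_pos volume hne).trans_le (measure_mono ?_)
    rintro z ⟨h1, h2, h3, h4⟩
    refine ⟨?_, h1.le, h2, h3.le, h4⟩
    have : z.im ≠ 0 := (hc.trans h3).ne'
    simp [this]
  · have : Measurable fun z : ℂ => ((1 / ‖z.im‖₊) ^ 2 : NNReal) := by
      have h1 : Measurable fun z : ℂ => ‖z.im‖₊ := Complex.measurable_im.nnnorm
      exact (measurable_const.div h1).pow_const 2
    exact this.coe_nnreal_ennreal

lemma volume_rect_lt_top {a b c d : ℝ} (hc : 0 < c) :
    (volume : Measure ℍ) (rect a b c d) < ⊤ := by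
  have hK : IsCompact (((↑) : ℍ → ℂ) ⁻¹' (Icc a b ×ℂ Icc c d)) := by
    rw [isEmbedding_coe.isCompact_iff]
    have : ((↑) : ℍ → ℂ) '' (((↑) : ℍ → ℂ) ⁻¹' (Icc a b ×ℂ Icc c d)) = Icc a b ×ℂ Icc c d := by
      apply image_preimage_eq_of_subset
      intro z hz
      exact ⟨⟨z, hc.trans_le hz.2.1⟩, rfl⟩
    rw [this]
    exact isCompact_Icc.reProdIm isCompact_Icc
  refine (measure_mono ?_).trans_lt hK.measure_lt_top
  rintro z ⟨h1, h2, h3, h4⟩
  exact ⟨⟨h1, h2.le⟩, ⟨h3, h4.le⟩⟩

variable {Ω : Type*} [MeasurableSpace Ω] {P : Measure Ω} {X : Ω → Set ℍ}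

lemma IsPoissonProcess.iIndep {μ : Measure ℍ} (hX : IsPoissonProcess P X μ) {ι : Type*}
    (A : ι → Set ℍ) (hA : ∀ i, MeasurableSet (A i)) (hd : ∀ i j, i ≠ j → Disjoint (A i) (A j)) :
    iIndepFun (fun i ω => (X ω ∩ A i).encard) P := by
  rw [iIndepFun_iff_finset]
  intro s
  have h := hX.indep_count s.card (fun m => A (s.equivFin.symm m)) (fun m => hA _)
    (fun i j hij => hd _ _ (fun h => hij (s.equivFin.symm.injective (Subtype.ext h))))
  have h2 := h.precomp (g := s.equivFin) s.equivFin.injective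
  simpa using! h2

lemma sq_disjoint {n : ℕ} (hn : 0 < n) {k i j k' i' j' : ℕ} (hi : i < 3 * n)
    (hi' : i' < 3 * n) (h : (k, i, j) ≠ (k', i', j')) :
    Disjoint (sq (4 * k) n i j) (sq (4 * k') n i' j') := by
  rw [Set.disjoint_left]
  rintro z ⟨a1, a2, a3, a4⟩ ⟨b1, b2, b3, b4⟩
  apply h
  have hn' : (0 : ℝ) < n := by exact_mod_cast hn
  have e1 : (4 * k : ℝ) + i / n = ((4 * n * k + i : ℕ) : ℝ) / n := by
    push_cast; field_simp
  have e2 : (4 * k : ℝ) + (i + 1) / n = ((4 * n * k + i + 1 : ℕ) : ℝ) / n := by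
    push_cast; field_simp; ring
  have e3 : (4 * k' : ℝ) + i' / n = ((4 * n * k' + i' : ℕ) : ℝ) / n := by
    push_cast; field_simp
  have e4 : (4 * k' : ℝ) + (i' + 1) / n = ((4 * n * k' + i' + 1 : ℕ) : ℝ) / n := by
    push_cast; field_simp; ring
  rw [e1] at a1; rw [e2] at a2; rw [e3] at b1; rw [e4] at b2
  have f1 := a1.trans_lt b2
  have f2 := b1.trans_lt a2
  rw [div_lt_div_iff_of_pos_right hn'] at f1 f2
  have f1' : 4 * n * k + i < 4 * n * k' + i' + 1 := by exact_mod_cast f1
  have f2' : 4 * n * k' + i' < 4 * n * k + i + 1 := by exact_mod_cast f2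
  have g1' : (1 : ℝ) + j / n < 1 + (j' + 1) / n := a3.trans_lt b4
  have g2' : (1 : ℝ) + j' / n < 1 + (j + 1) / n := b3.trans_lt a4
  rw [add_lt_add_iff_left, div_lt_div_iff_of_pos_right hn'] at g1' g2'
  have g3 : j < j' + 1 := by exact_mod_cast g1'
  have g4 : j' < j + 1 := by exact_mod_cast g2'
  have hkk : k = k' := by
    rcases lt_trichotomy k k' with hlt | heq | hgt
    · exfalso
      have : 4 * n * (k + 1) ≤ 4 * n * k' := Nat.mul_le_mul_left _ hlt
      rw [Nat.mul_succ] at this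
      omega
    · exact heq
    · exfalso
      have : 4 * n * (k' + 1) ≤ 4 * n * k := Nat.mul_le_mul_left _ hgt
      rw [Nat.mul_succ] at this
      omega
  subst hkk
  have : i = i' := by omega
  have : j = j' := by omega
  simp [*]

/-- The probability that a mesh square contains exactly one site. -/
noncomputable def onePr (lam : ℝ≥0) (n : ℕ) (x : Fin (3 * n) × Fin (3 * n)) : ℝ≥0∞ :=
  ENNReal.ofReal (Real.exp (-((lam • (volume : Measure ℍ)) (sq 0 n x.1 x.2)).toReal) *
    ((lam • (volume : Measure ℍ)) (sq 0 n x.1 x.2)).toReal)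

lemma volume_sq_translate (k n i j : ℕ) :
    (volume : Measure ℍ) (sq (4 * k) n i j) = volume (sq 0 n i j) := by
  have h := volume_rect_translate (a := 0 + i / n) (b := 0 + (i + 1) / n) (c := 1 + j / n)
    (d := 1 + (j + 1) / n) (by positivity) (4 * k)
  rw [sq, sq, ← h]
  congr 1
  rw [add_comm (4 * (k : ℝ)), add_comm (4 * (k : ℝ))]
  simp

lemma volume_sq_pos {n : ℕ} (hn : 0 < n) (i j : ℕ) : 0 < (volume : Measure ℍ) (sq 0 n i j) := by
  have hn' : (0 : ℝ) < n := by exact_mod_cast hn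
  apply volume_rect_pos
  · have : (i : ℝ) / n < (i + 1) / n := by
      rw [div_lt_div_iff_of_pos_right hn']; linarith
    linarith
  · positivity
  · have : (j : ℝ) / n < (j + 1) / n := by
      rw [div_lt_div_iff_of_pos_right hn']; linarith
    linarith

lemma volume_sq_lt_top (s : ℝ) (n i j : ℕ) : (volume : Measure ℍ) (sq s n i j) < ⊤ :=
  volume_rect_lt_top (by positivity)

lemma onePr_pos {lam : ℝ≥0} (hlam : 0 < lam) {n : ℕ} (hn : 0 < n)
    (x : Fin (3 * n) × Fin (3 * n)) : 0 < onePr lam n x := by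
  rw [onePr, ENNReal.ofReal_pos]
  have h1 := volume_sq_pos hn x.1 x.2
  have h2 := volume_sq_lt_top 0 n x.1 x.2
  have h3 : 0 < ((lam • (volume : Measure ℍ)) (sq 0 n x.1 x.2)).toReal := by
    rw [Measure.smul_apply]
    apply ENNReal.toReal_pos
    · rw [ENNReal.smul_def, smul_eq_mul]
      exact mul_ne_zero (by exact_mod_cast hlam.ne') h1.ne'
    · rw [ENNReal.smul_def, smul_eq_mul]
      exact ENNReal.mul_ne_top ENNReal.coe_ne_top h2.ne
  positivity

lemma IsPoissonProcess.prob_one {lam : ℝ≥0} (hX : IsPoissonProcess P X (lam • volume))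
    (n k : ℕ) (x : Fin (3 * n) × Fin (3 * n)) :
    P {ω | (X ω ∩ sq (4 * k) n x.1 x.2).encard = 1} = onePr lam n x := by
  have hfin : (lam • (volume : Measure ℍ)) (sq (4 * k) n x.1 x.2) ≠ ⊤ := by
    rw [Measure.smul_apply, ENNReal.smul_def, smul_eq_mul]
    exact ENNReal.mul_ne_top ENNReal.coe_ne_top (volume_sq_lt_top _ n x.1 x.2).ne
  have h := hX.law_count (sq (4 * k) n x.1 x.2) (measurableSet_sq _ _ _ _) hfin 1
  have e : (lam • (volume : Measure ℍ)) (sq (4 * k) n x.1 x.2) =
      (lam • (volume : Measure ℍ)) (sq 0 n x.1 x.2) := by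
    rw [Measure.smul_apply, Measure.smul_apply, volume_sq_translate]
  rw [e] at h
  simpa [onePr] using! h

theorem IsPoissonProcess.ae_exists_patch [IsProbabilityMeasure P] {lam : ℝ≥0} (hlam : 0 < lam)
    (hX : IsPoissonProcess P X (lam • volume)) {n : ℕ} (hn : 0 < n) :
    ∀ᵐ ω ∂P, ∃ k : ℕ, Patch (X ω) (4 * k) n := by
  classical
  let ι := ℕ × Fin (3 * n) × Fin (3 * n)
  let f : ι → Ω → ℕ∞ := fun x ω => (X ω ∩ sq (4 * x.1) n x.2.1 x.2.2).encard
  have hfm : ∀ x, Measurable (f x) := fun x => hX.measurable_count _ (measurableSet_sq _ _ _ _)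
  have hind : iIndepFun f P := by
    refine hX.iIndep (fun x : ι => sq (4 * x.1) n x.2.1 x.2.2) (fun x => measurableSet_sq _ _ _ _) ?_
    rintro ⟨k, i, j⟩ ⟨k', i', j'⟩ hne
    refine sq_disjoint hn i.2 i'.2 fun h => hne ?_
    simp only [Prod.mk.injEq] at h
    exact Prod.ext h.1 (Prod.ext (Fin.ext h.2.1) (Fin.ext h.2.2))
  have hpatch : ∀ (ω : Ω) (k : ℕ), Patch (X ω) (4 * k) n ↔
      ∀ x : Fin (3 * n) × Fin (3 * n), f (k, x) ω = 1 := by
    intro ω k
    constructor
    · intro h x
      exact h x.1 x.1.2 x.2 x.2.2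
    · intro h i hi j hj
      exact h (⟨i, hi⟩, ⟨j, hj⟩)
  let p : ℝ≥0∞ := ∏ x : Fin (3 * n) × Fin (3 * n), onePr lam n x
  have hp0 : p ≠ 0 := Finset.prod_ne_zero_iff.mpr fun x _ => (onePr_pos hlam hn x).ne'
  let T : ℕ → Finset ι := fun K => {K} ×ˢ Finset.univ
  let S : ℕ → Finset ι := fun K => Finset.range K ×ˢ Finset.univ
  have hT : ∀ (K : ℕ) (x : ι), x ∈ T K ↔ x.1 = K := fun K x => by
    change x ∈ ({K} : Finset ℕ) ×ˢ Finset.univ ↔ _
    rw [Finset.mem_product, Finset.mem_singleton]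
    exact ⟨fun h => h.1, fun h => ⟨h, Finset.mem_univ _⟩⟩
  have hS : ∀ (K : ℕ) (x : ι), x ∈ S K ↔ x.1 < K := fun K x => by
    change x ∈ Finset.range K ×ˢ Finset.univ ↔ _
    rw [Finset.mem_product, Finset.mem_range]
    exact ⟨fun h => h.1, fun h => ⟨h, Finset.mem_univ _⟩⟩
  have hE : ∀ K : ℕ, P {ω | Patch (X ω) (4 * K) n} = p := by
    intro K
    have h1 := hind.measure_inter_preimage_eq_mul (T K) (sets := fun _ => {1})
      (fun i _ => measurableSet_singleton _)
    have h2 : {ω | Patch (X ω) (4 * K) n} = ⋂ i ∈ T K, f i ⁻¹' {1} := by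
      ext ω
      simp only [mem_ofPred_eq, hpatch, mem_iInter, mem_preimage, mem_singleton_iff]
      constructor
      · intro h x hx
        have : x.1 = K := (hT K x).mp hx
        have h3 := h x.2
        rwa [← this] at h3
      · intro h x
        exact h (K, x) ((hT K _).mpr rfl)
    rw [h2, h1]
    have h3 : ∏ i ∈ T K, P (f i ⁻¹' {1}) =
        ∏ x : Fin (3 * n) × Fin (3 * n), P (f (K, x) ⁻¹' {1}) := by
      change ∏ i ∈ ({K} : Finset ℕ) ×ˢ (Finset.univ : Finset (Fin (3 * n) × Fin (3 * n))),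
        P (f i ⁻¹' {1}) = _
      rw [Finset.prod_product, Finset.prod_singleton]
    rw [h3]
    refine Finset.prod_congr rfl fun x _ => ?_
    exact hX.prob_one n K x
  have hp1 : p ≤ 1 := by rw [← hE 0]; exact prob_le_one
  have hB : ∀ K : ℕ, P {ω | ∀ k < K, ¬ Patch (X ω) (4 * k) n} = (1 - p) ^ K := by
    intro K
    induction K with
    | zero => simp
    | succ K ih =>
      have hdisj : Disjoint (S K) (T K) := by
        rw [Finset.disjoint_left]
        intro x hx hx'
        have h1 : x.1 < K := (hS K x).mp hx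
        have h2 : x.1 = K := (hT K x).mp hx'
        omega
      have hindST := hind.indepFun_finset (S K) (T K) hdisj hfm
      let U1 : Set ((i : S K) → ℕ∞) := {g | ∀ k < K, ∃ x : S K, x.1.1 = k ∧ g x ≠ 1}
      let U2 : Set ((i : T K) → ℕ∞) := {g | ∃ x : T K, g x ≠ 1}
      have hU1 : MeasurableSet U1 := by
        have : U1 = ⋂ k : ℕ, ⋂ _ : k < K, ⋃ x : S K, {g | x.1.1 = k ∧ g x ≠ 1} := by
          ext g; simp [U1]
        rw [this]
        refine MeasurableSet.iInter fun k => MeasurableSet.iInter fun _ =>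
          MeasurableSet.iUnion fun x => ?_
        by_cases hx : x.1.1 = k
        · have : {g : (i : S K) → ℕ∞ | x.1.1 = k ∧ g x ≠ 1} = (fun g => g x) ⁻¹' {1}ᶜ := by
            ext g; simp [hx]
          rw [this]
          exact (measurable_pi_apply x) (measurableSet_singleton _).compl
        · have : {g : (i : S K) → ℕ∞ | x.1.1 = k ∧ g x ≠ 1} = ∅ := by
            ext g; simp [hx]
          rw [this]; exact MeasurableSet.empty
      have hU2 : MeasurableSet U2 := by
        have : U2 = ⋃ x : T K, {g | g x ≠ 1} := by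
          ext g; simp [U2]
        rw [this]
        refine MeasurableSet.iUnion fun x => ?_
        exact (measurable_pi_apply x) (measurableSet_singleton _).compl
      have hmul := hindST.measure_inter_preimage_eq_mul U1 U2 hU1 hU2
      have e1 : (fun a (i : S K) => f i a) ⁻¹' U1 = {ω | ∀ k < K, ¬ Patch (X ω) (4 * k) n} := by
        ext ω
        simp only [mem_preimage, U1, mem_ofPred_eq, hpatch, not_forall]
        constructor
        · intro h k hk
          obtain ⟨x, hx, hne⟩ := h k hk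
          refine ⟨x.1.2, ?_⟩
          rw [← hx]; exact hne
        · intro h k hk
          obtain ⟨x, hx⟩ := h k hk
          exact ⟨⟨(k, x), (hS K _).mpr hk⟩, rfl, hx⟩
      have e2 : (fun a (i : T K) => f i a) ⁻¹' U2 = {ω | Patch (X ω) (4 * K) n}ᶜ := by
        ext ω
        simp only [mem_preimage, U2, mem_ofPred_eq, mem_compl_iff, hpatch, not_forall]
        constructor
        · rintro ⟨x, hx⟩
          refine ⟨x.1.2, ?_⟩
          have hxK : x.1.1 = K := (hT K _).mp x.2
          have hxx : ((K, x.1.2) : ι) = x.1 := Prod.ext hxK.symm rfl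
          rw [hxx]; exact hx
        · rintro ⟨x, hx⟩
          exact ⟨⟨(K, x), (hT K _).mpr rfl⟩, hx⟩
      have e3 : {ω | ∀ k < K + 1, ¬ Patch (X ω) (4 * k) n} =
          {ω | ∀ k < K, ¬ Patch (X ω) (4 * k) n} ∩ {ω | Patch (X ω) (4 * K) n}ᶜ := by
        ext ω
        simp only [mem_ofPred_eq, mem_inter_iff, mem_compl_iff]
        constructor
        · intro h
          exact ⟨fun k hk => h k (Nat.lt_succ_of_lt hk), h K (Nat.lt_succ_self K)⟩
        · rintro ⟨h1, h2⟩ k hk
          rcases Nat.lt_succ_iff_lt_or_eq.mp hk with h | h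
          · exact h1 k h
          · rw [h]; exact h2
      have hEm : MeasurableSet {ω | Patch (X ω) (4 * K) n} := by
        have : {ω | Patch (X ω) (4 * K) n} = ⋂ x : Fin (3 * n) × Fin (3 * n), f (K, x) ⁻¹' {1} := by
          ext ω
          simp only [mem_ofPred_eq, hpatch, mem_iInter, mem_preimage, mem_singleton_iff]
        rw [this]
        exact MeasurableSet.iInter fun x => hfm _ (measurableSet_singleton _)
      rw [e1, e2] at hmul
      rw [e3, hmul, ih, prob_compl_eq_one_sub hEm, hE, pow_succ]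
  rw [ae_iff]
  have hsub : ∀ K : ℕ, P {ω | ¬ ∃ k : ℕ, Patch (X ω) (4 * k) n} ≤ (1 - p) ^ K := by
    intro K
    rw [← hB K]
    apply measure_mono
    intro ω hω k _ hk
    exact hω ⟨k, hk⟩
  have hlim : Filter.Tendsto (fun K : ℕ => (1 - p) ^ K) Filter.atTop (nhds 0) :=
    ENNReal.tendsto_pow_atTop_nhds_zero_of_lt_one
      (ENNReal.sub_lt_self ENNReal.one_ne_top one_ne_zero hp0)
  exact le_antisymm (ge_of_tendsto' hlim hsub) bot_le

lemma IsPoissonProcess.ae_finite {μ : Measure ℍ} [IsProbabilityMeasure P]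
    (hX : IsPoissonProcess P X μ) {A : Set ℍ} (hA : MeasurableSet A) (hfin : μ A ≠ ⊤) :
    ∀ᵐ ω ∂P, (X ω ∩ A).Finite := by
  have hm := hX.measurable_count A hA
  have hsum : P (⋃ k : ℕ, {ω | (X ω ∩ A).encard = k}) = 1 := by
    rw [measure_iUnion]
    · have h1 : ∀ k : ℕ, P {ω | (X ω ∩ A).encard = k} =
          ENNReal.ofReal (Real.exp (-(μ A).toReal) * (μ A).toReal ^ k / k.factorial) :=
        fun k => hX.law_count A hA hfin k
      simp_rw [h1]
      have h2 := hasSum_one_poissonMeasure (μ A).toNNReal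
      simp only [ENNReal.coe_toNNReal_eq_toReal] at h2
      rw [← ENNReal.ofReal_tsum_of_nonneg (fun k => by positivity) h2.summable]
      rw [h2.tsum_eq, ENNReal.ofReal_one]
    · intro k k' hkk
      rw [Function.onFun, Set.disjoint_left]
      intro ω h1 h2
      simp only [mem_ofPred_eq] at h1 h2
      rw [h1] at h2
      exact hkk (by exact_mod_cast h2)
    · intro k
      exact hm (measurableSet_singleton _)
  have hmeas : MeasurableSet (⋃ k : ℕ, {ω | (X ω ∩ A).encard = k}) :=
    MeasurableSet.iUnion fun k => hm (measurableSet_singleton _)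
  have h4 : ∀ᵐ ω ∂P, ω ∈ ⋃ k : ℕ, {ω | (X ω ∩ A).encard = k} := by
    rw [ae_iff]
    have := prob_compl_eq_zero_iff hmeas (μ := P)
    exact this.mpr hsum
  filter_upwards [h4] with ω hω
  obtain ⟨k, hk⟩ := mem_iUnion.mp hω
  exact Set.finite_of_encard_eq_coe hk

theorem IsPoissonProcess.ae_locFin [IsProbabilityMeasure P] {lam : ℝ≥0}
    (hX : IsPoissonProcess P X (lam • volume)) : ∀ᵐ ω ∂P, LocFin (X ω) := by
  have h : ∀ k : ℕ, ∀ᵐ ω ∂P, (X ω ∩ closedBall UpperHalfPlane.I k).Finite := by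
    intro k
    apply hX.ae_finite isClosed_closedBall.measurableSet
    rw [Measure.smul_apply, ENNReal.smul_def, smul_eq_mul]
    exact ENNReal.mul_ne_top ENNReal.coe_ne_top
      (isCompact_closedBall (UpperHalfPlane.I) (k : ℝ)).measure_lt_top.ne
  filter_upwards [ae_all_iff.mpr h] with ω hω z r
  obtain ⟨k, hk⟩ := exists_nat_ge (r + dist z UpperHalfPlane.I)
  refine (hω k).subset ?_
  rintro w ⟨hw1, hw2⟩
  refine ⟨hw1, ?_⟩
  rw [mem_closedBall] at hw2 ⊢
  have := dist_triangle w z UpperHalfPlane.I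
  linarith

end Pool.Agent.Lib.MP_c20824_pr
end

section

/-!
# Thinness of nondegenerate anchored triangles implies thinness of all anchored triangles
-/

namespace Pool.Agent.Lib.MP_c20824_pr

variable {V : Type*} {G : SimpleGraph V}

/-- All geodesic triangles with three distinct vertices, one of which is `x`, are `δ`-thin. -/
def AnchoredThinND (G : SimpleGraph V) (x : V) (δ : ℝ) : Prop :=
  ∀ (y z : V) (p : G.Walk x y) (q : G.Walk y z) (r : G.Walk x z), x ≠ y → y ≠ z → x ≠ z →
    IsGeodesic p → IsGeodesic q → IsGeodesic r → IsThin δ p q r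

lemma mem_support_of_length_zero {x y : V} {p : G.Walk x y} (hp : p.length = 0) {u : V}
    (hu : u ∈ p.support) : u = x := by
  obtain ⟨t, ht, rfl⟩ := exists_getVert_of_mem p hu
  have : t = 0 := by omega
  subst this
  exact p.getVert_zero

lemma bigon {x : V} {δ : ℝ} (h : AnchoredThinND G x δ) (hδ : 0 ≤ δ) {y : V} (p r : G.Walk x y)
    (hp : IsGeodesic p) (hr : IsGeodesic r) {u : V} (hu : u ∈ p.support) :
    ∃ v ∈ r.support, (G.dist u v : ℝ) ≤ δ := by
  by_cases hxy : x = y
  · subst hxy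
    have hp0 : p.length = 0 := by rw [hp, SimpleGraph.dist_self]
    have := mem_support_of_length_zero hp0 hu
    exact ⟨x, r.start_mem_support, by rw [this, SimpleGraph.dist_self]; simpa using hδ⟩
  · have hreach : G.Reachable x y := ⟨p⟩
    have hpos : 0 < G.dist x y := hreach.pos_dist_of_ne hxy
    obtain ⟨n, hn⟩ : ∃ n, r.length = n + 1 := ⟨r.length - 1, by
      have : r.length = G.dist x y := hr
      omega⟩
    have hadj := r.adj_getVert_succ (i := n) (by omega)
    have hend : r.getVert (n + 1) = y := by rw [← hn, r.getVert_length]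
    rw [hend] at hadj
    have hr' : (r.take n).length = n := by
      rw [SimpleGraph.Walk.take_length, hn]; omega
    have hdz : G.dist x (r.getVert n) = n := by
      have h1 := SimpleGraph.dist_le (r.take n)
      rw [hr'] at h1
      have h2 := hreach.dist_triangle_left (w := r.getVert n)
      have h3 : G.dist (r.getVert n) y ≤ 1 := by
        have := SimpleGraph.dist_le (SimpleGraph.Walk.cons hadj SimpleGraph.Walk.nil)
        simpa using this
      have h4 : r.length = G.dist x y := hr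
      have h5 : G.dist x y ≤ G.dist x (r.getVert n) + G.dist (r.getVert n) y :=
        (SimpleGraph.Reachable.dist_triangle_left ⟨r.take n⟩ y)
      omega
    by_cases hxz : x = r.getVert n
    · have hn0 : n = 0 := by
        rw [← hxz, SimpleGraph.dist_self] at hdz
        exact hdz.symm
      have hp1 : p.length = 1 := by
        have h4 : r.length = G.dist x y := hr
        rw [hp]; omega
      obtain ⟨t, ht, rfl⟩ := exists_getVert_of_mem p hu
      rw [hp1] at ht
      have : t = 0 ∨ t = 1 := by omega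
      rcases this with rfl | rfl
      · exact ⟨x, r.start_mem_support, by
          rw [p.getVert_zero, SimpleGraph.dist_self]; simpa using hδ⟩
      · have : p.getVert 1 = y := by rw [← hp1, p.getVert_length]
        exact ⟨y, r.end_mem_support, by
          rw [this, SimpleGraph.dist_self]; simpa using hδ⟩
    · have hq : IsGeodesic (SimpleGraph.Walk.cons hadj.symm SimpleGraph.Walk.nil) := by
        have h1 : G.dist y (r.getVert n) = 1 := SimpleGraph.dist_eq_one_iff_adj.mpr hadj.symm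
        change 1 = G.dist y (r.getVert n)
        exact h1.symm
      have hthin := h y (r.getVert n) p (SimpleGraph.Walk.cons hadj.symm SimpleGraph.Walk.nil)
        (r.take n) hxy hadj.ne' hxz hp hq (by change (r.take n).length = _; rw [hr', hdz])
      obtain ⟨v, hv, hd⟩ := hthin.1 u hu
      refine ⟨v, ?_, hd⟩
      rcases hv with hv | hv
      · simp only [SimpleGraph.Walk.support_cons, SimpleGraph.Walk.support_nil, List.mem_cons,
          List.not_mem_nil, or_false] at hv
        rcases hv with rfl | rfl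
        · exact r.end_mem_support
        · exact r.getVert_mem_support n
      · obtain ⟨t, -, rfl⟩ := exists_getVert_of_mem _ hv
        rw [SimpleGraph.Walk.take_getVert]
        exact r.getVert_mem_support _

theorem AnchoredThinND.anchoredThin {x : V} {δ : ℝ} (h : AnchoredThinND G x δ) (hδ : 0 ≤ δ) :
    AnchoredThin G x δ := by
  intro y z p q r hp hq hr
  have triv : ∀ {a b : V} (w : G.Walk a b), w.length = 0 → ∀ (B C : List V), a ∈ B →
      NearUnion G δ w.support B C := by
    intro a b w hw B C ha u hu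
    rw [mem_support_of_length_zero hw hu]
    exact ⟨a, Or.inl ha, by rw [SimpleGraph.dist_self]; simpa using hδ⟩
  have triv' : ∀ {a b : V} (w : G.Walk a b), w.length = 0 → ∀ (B C : List V), a ∈ C →
      NearUnion G δ w.support B C := by
    intro a b w hw B C ha u hu
    rw [mem_support_of_length_zero hw hu]
    exact ⟨a, Or.inr ha, by rw [SimpleGraph.dist_self]; simpa using hδ⟩
  by_cases hxy : x = y
  · subst hxy
    have hp0 : p.length = 0 := by rw [hp, SimpleGraph.dist_self]
    refine ⟨triv p hp0 _ _ q.start_mem_support, fun u hu => ?_, fun u hu => ?_⟩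
    · obtain ⟨v, hv, hd⟩ := bigon h hδ q r hq hr hu
      exact ⟨v, Or.inr hv, hd⟩
    · obtain ⟨v, hv, hd⟩ := bigon h hδ r q hr hq hu
      exact ⟨v, Or.inr hv, hd⟩
  by_cases hxz : x = z
  · subst hxz
    have hr0 : r.length = 0 := by rw [hr, SimpleGraph.dist_self]
    have hq' : IsGeodesic q.reverse := by
      change q.reverse.length = _
      rw [SimpleGraph.Walk.length_reverse, hq, SimpleGraph.dist_comm]
    refine ⟨fun u hu => ?_, fun u hu => ?_, triv r hr0 _ _ p.start_mem_support⟩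
    · obtain ⟨v, hv, hd⟩ := bigon h hδ p q.reverse hp hq' hu
      rw [SimpleGraph.Walk.support_reverse, List.mem_reverse] at hv
      exact ⟨v, Or.inl hv, hd⟩
    · obtain ⟨v, hv, hd⟩ := bigon h hδ q.reverse p hq' hp (u := u) (by
        rw [SimpleGraph.Walk.support_reverse, List.mem_reverse]; exact hu)
      exact ⟨v, Or.inl hv, hd⟩
  by_cases hyz : y = z
  · subst hyz
    have hq0 : q.length = 0 := by rw [hq, SimpleGraph.dist_self]
    refine ⟨fun u hu => ?_, triv q hq0 _ _ p.end_mem_support, fun u hu => ?_⟩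
    · obtain ⟨v, hv, hd⟩ := bigon h hδ p r hp hr hu
      exact ⟨v, Or.inr hv, hd⟩
    · obtain ⟨v, hv, hd⟩ := bigon h hδ r p hr hp hu
      exact ⟨v, Or.inl hv, hd⟩
  exact h y z p q r hxy hyz hxz hp hq hr

end Pool.Agent.Lib.MP_c20824_pr
end
end
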